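import Pool.Agent.NH69.MI.Core6
import Pool.Agent.NH73.RO.C4

/-!
# The two-variable inequality for multiplicatively independent units: the case without a relation

Copy of the main lemma of `Pool.Agent.NH69.MI.Core6` (helper69).
-/

set_option autoImplicit false

open NumberField Module

namespace Pool.Agent.NH73.RO

open Pool.Agent.NH69.MI

section

variable {K : Type} [Field K] [NumberField K] {S : Finset (K →+* ℂ)} {u : ℝ} {x y : (𝓞 K)ˣ}

lemma t_main (hg : S_GAIN) (hr : S_RAM) (hd : S_DISC) (hs : S_SPAN) (hc : S_CRT) (hp : S_PIG)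
    (hdeg : S_DEGA) {k X₀ : ℕ} (hX₀ : ∀ X : ℕ, X₀ ≤ X →
      X ≤ (((Finset.Ioc X (2 * X)).filter Nat.Prime).card) ^ 2)
    (hE : Env K S u k X₀) (hP : Pair3 K S u x y)
    (hgen : Algebra.adjoin ℚ {((x : 𝓞 K) : K), ((y : 𝓞 K) : K)} = ⊤)
    (hno : ∀ G : MvPolynomial (Fin 2) ℤ, G ≠ 0 → (∀ i, G.degreeOf i ≤ ⌊S.card * u ^ 20⌋₊) →
      MvPolynomial.aeval ![((x : 𝓞 K) : K), ((y : 𝓞 K) : K)] G ≠ 0) : False := by
  classical
  obtain ⟨l, hldef⟩ : ∃ l, l = Real.log u := ⟨_, rfl⟩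
  obtain ⟨D, hDdef⟩ : ∃ D : ℝ, D = (finrank ℚ K : ℝ) := ⟨_, rfl⟩
  obtain ⟨s, hsdef⟩ : ∃ s : ℝ, s = (S.card : ℝ) := ⟨_, rfl⟩
  have hu := hE.hu
  have hl := hE.hl
  have hbig := hE.hbig
  have hS := hE.hS
  have hk0 : (0 : ℝ) ≤ k := Nat.cast_nonneg _
  rw [← hldef] at hl hbig
  rw [← hDdef, ← hsdef] at hS
  have hs1 : 1 ≤ s := by
    rw [hsdef]
    exact_mod_cast hP.card_pos
  have hs0 : 0 < s := by linarith
  have hu1 : 1 ≤ u := by linarith
  have hu0 : 0 < u := by linarith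
  have hl0 : 0 ≤ l := by linarith
  have hDpos : 0 < finrank ℚ K := finrank_pos
  have hD1 : 0 < D := by
    rw [hDdef]
    exact_mod_cast hDpos
  have hsD : s * u ^ 14 ≤ D := by
    calc s * u ^ 14 = (s * 1) * u ^ 14 := by ring
      _ ≤ (s * s) * u ^ 100 := by
          gcongr
          norm_num
      _ = s ^ 2 * u ^ 100 := by ring
      _ ≤ D := hS
  -- the set of the primes
  obtain ⟨PR, hPR, hPRcard⟩ := primes_range hX₀ hu hE.hX
  -- the shape of the boxes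
  obtain ⟨δ, hδ⟩ : ∃ δ : ℕ, δ = ⌊s * u ^ 14⌋₊ := ⟨_, rfl⟩
  have hδ2 : (δ : ℝ) ≤ s * u ^ 14 := by
    rw [hδ]
    exact Nat.floor_le (by positivity)
  have hδ3 : s * u ^ 14 / 2 ≤ (δ : ℝ) := by
    have h1 := Nat.lt_floor_add_one (s * u ^ 14)
    have h2 : 2 ≤ s * u ^ 14 := by
      have e1 : u ≤ u ^ 14 := le_self_pow₀ hu1 (by norm_num)
      have e2 : 1 * u ^ 14 ≤ s * u ^ 14 := by gcongr
      linarith
    rw [← hδ] at h1
    linarith
  have hδpos : (0 : ℝ) < δ := lt_of_lt_of_le (by positivity) hδ3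
  have hδ1 : 1 ≤ δ := by
    have : 0 < δ := by exact_mod_cast hδpos
    omega
  obtain ⟨L, hL⟩ : ∃ L : ℕ, L = 2 * finrank ℚ K / δ + 1 := ⟨_, rfl⟩
  have hLδ : 2 * finrank ℚ K ≤ L * δ := by
    rw [hL, add_mul, one_mul]
    exact (Nat.lt_div_mul_add (by omega)).le
  have hL1 : 1 ≤ L := by
    rw [hL]
    exact Nat.le_add_left _ _
  have hLle : (L : ℝ) * (s * u ^ 14) ≤ 5 * D := by
    have h1 : (L : ℝ) ≤ 2 * D / δ + 1 := by
      rw [hL]
      push_cast
      have := @Nat.cast_div_le ℝ _ _ _ (2 * finrank ℚ K) δ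
      push_cast at this
      rw [← hDdef] at this
      linarith
    have h2 : 2 * D / δ ≤ 4 * D / (s * u ^ 14) := by
      rw [div_le_div_iff₀ hδpos (by positivity)]
      calc 2 * D * (s * u ^ 14) = 4 * D * (s * u ^ 14 / 2) := by ring
        _ ≤ 4 * D * δ := by gcongr
    calc (L : ℝ) * (s * u ^ 14) ≤ (4 * D / (s * u ^ 14) + 1) * (s * u ^ 14) := by
          gcongr
          linarith
      _ = 4 * D + s * u ^ 14 := by
          field_simp
      _ ≤ 5 * D := by linarith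
  -- spans
  have hW : ∀ p : ℕ, 1 ≤ p → (p : ℝ) ≤ 2 * u ^ 5 →
      W L (((x : 𝓞 K) : K) ^ p) (((y : 𝓞 K) : K) ^ p) =
        Subalgebra.toSubmodule (Algebra.adjoin ℚ
          {((x : 𝓞 K) : K) ^ p, ((y : 𝓞 K) : K) ^ p}) := by
    intro p hp1 hp2
    refine hs K _ _ δ L hδ1 (norel_li _ _ ⌊S.card * u ^ 20⌋₊ hno hp1 ?_) hLδ
    apply Nat.le_floor
    push_cast
    rw [← hsdef]
    calc (p : ℝ) * δ ≤ (2 * u ^ 5) * (s * u ^ 14) := by gcongr
      _ = (s * u ^ 19) * 2 := by ring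
      _ ≤ (s * u ^ 19) * u := by gcongr; linarith
      _ = s * u ^ 20 := by ring
  have hW1 : W L ((x : 𝓞 K) : K) ((y : 𝓞 K) : K) = ⊤ := by
    have h1 : 1 ≤ u ^ 5 := one_le_pow₀ hu1
    have h2 := hW 1 le_rfl (by push_cast; linarith)
    rw [pow_one, pow_one, hgen] at h2
    rw [h2]
    rfl
  -- bad primes
  obtain ⟨bad1, hbad1⟩ : ∃ B, B = PR.filter (fun p => 2 * unr K p < finrank ℚ K) := ⟨_, rfl⟩
  obtain ⟨bad2, hbad2⟩ : ∃ B, B = PR.filter (fun p => Algebra.adjoin ℚ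
      {((x : 𝓞 K) : K) ^ p, ((y : 𝓞 K) : K) ^ p} ≠ ⊤) := ⟨_, rfl⟩
  have hb1 : (bad1.card : ℝ) ≤ k + 1 := by
    have h1 := hr K bad1 (fun p hp => by
      rw [hbad1, Finset.mem_filter] at hp
      exact ⟨(hPR p hp.1).1, hp.2⟩)
    have h2 := disc_le hd hP hu0.le hW1
    have h3 : (bad1.card : ℝ) * (5 * l) ≤ ∑ p ∈ bad1, Real.log p := by
      rw [← nsmul_eq_mul]
      apply Finset.card_nsmul_le_sum
      intro p hp
      rw [hbad1, Finset.mem_filter] at hp
      calc 5 * l = Real.log (u ^ 5) := by rw [Real.log_pow, hldef]; norm_num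
        _ ≤ Real.log p := Real.log_le_log (by positivity) (hPR p hp.1).2.1
    have h4 : Real.log (finrank ℚ K) ≤ k * l := by
      rw [hldef, ← Real.log_pow]
      refine Real.log_le_log (by exact_mod_cast hDpos) ?_
      linarith [hE.hD]
    rw [← hDdef] at h1 h2 h4
    rw [← hsdef] at h2
    have h5 : 2 * (s * (2 * L * u)) ≤ D := by
      have e1 : 20 * (s * L * u) ≤ (s * L * u) * u ^ 13 := by
        have : 20 ≤ u ^ 13 := by
          have : u ≤ u ^ 13 := le_self_pow₀ hu1 (by norm_num)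
          linarith
        have e2 : 0 ≤ s * L * u := by positivity
        nlinarith
      have e3 : (s * L * u) * u ^ 13 = L * (s * u ^ 14) := by ring
      linarith
    have h6 : D * (1 / 4 * (bad1.card * (5 * l))) ≤ D * (k * l + 1) := by
      calc D * (1 / 4 * (bad1.card * (5 * l))) = D / 4 * (bad1.card * (5 * l)) := by ring
        _ ≤ D / 4 * ∑ p ∈ bad1, Real.log p := by gcongr
        _ ≤ D * Real.log D + 2 * (s * (2 * L * u)) := h1.trans h2
        _ ≤ D * (k * l) + D := by gcongr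
        _ = _ := by ring
    have h7 := le_of_mul_le_mul_left h6 hD1
    by_contra hcon
    push Not at hcon
    nlinarith
  have hb2 : (bad2.card : ℝ) ≤ 2 * (k * l) := by
    have h1 := hdeg K S ((x : 𝓞 K) : K) ((y : 𝓞 K) : K) hP.ne1 hP.ne2
      (fun ρ hρ => ⟨hP.circ1 ρ hρ, hP.circ2 ρ hρ⟩)
      (by
        obtain ⟨ρ, h⟩ := hP.off1
        exact ⟨ρ, Or.inl h⟩) hgen bad2 (fun p hp => by
        rw [hbad2, Finset.mem_filter] at hp
        exact ⟨(hPR p hp.1).1, hp.2⟩)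
    have h2 : (2 : ℝ) ^ bad2.card ≤ u ^ k := by
      have h3 : (2 : ℝ) ^ bad2.card ≤ s := by
        rw [hsdef]
        exact_mod_cast h1
      have h4 : s ≤ D := by
        refine le_trans ?_ hsD
        have : 1 ≤ u ^ 14 := one_le_pow₀ hu1
        nlinarith
      have h5 := hE.hD
      rw [← hDdef] at h5
      linarith
    have h3 := Real.log_le_log (by positivity) h2
    rw [Real.log_pow, Real.log_pow, ← hldef] at h3
    have h4 : (1 : ℝ) / 2 < Real.log 2 := by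
      have := Real.log_two_gt_d9
      linarith
    have h5 : (bad2.card : ℝ) * (1 / 2) ≤ bad2.card * Real.log 2 := by gcongr
    linarith
  obtain ⟨M, hM⟩ : ∃ M : ℕ, M = ⌈u ^ 2⌉₊ := ⟨_, rfl⟩
  have hM1 : u ^ 2 ≤ (M : ℝ) := by
    rw [hM]
    exact Nat.le_ceil _
  have hM2 : (M : ℝ) < u ^ 2 + 1 := by
    rw [hM]
    exact Nat.ceil_lt_add_one (sq_nonneg u)
  have hgood : M ≤ (PR \ (bad1 ∪ bad2)).card := by
    have h1 : PR.card ≤ (PR \ (bad1 ∪ bad2)).card + (bad1.card + bad2.card) := by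
      have h2 := Finset.le_card_sdiff (bad1 ∪ bad2) PR
      have h3 := Finset.card_union_le bad1 bad2
      omega
    have h2 : (PR.card : ℝ) ≤ ((PR \ (bad1 ∪ bad2)).card : ℝ) + (bad1.card + bad2.card) := by
      exact_mod_cast h1
    have h3 : (k : ℝ) + 1 + 2 * (k * l) ≤ u := by
      have e1 : (k : ℝ) * l ≤ (k + 3) ^ 3 * l := by
        apply mul_le_mul_of_nonneg_right _ hl0
        nlinarith [sq_nonneg (k : ℝ), pow_nonneg hk0 3]
      have e2 : (k : ℝ) + 1 ≤ (k + 3) ^ 3 * l := by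
        have e3 : (k : ℝ) + 1 ≤ (k + 3) ^ 3 := by nlinarith [sq_nonneg (k : ℝ), pow_nonneg hk0 3]
        have e4 : 0 ≤ ((k : ℝ) + 3) ^ 3 := by positivity
        nlinarith
      have e5 : 0 ≤ ((k : ℝ) + 3) ^ 3 * l := by positivity
      nlinarith
    have h4 : u ≤ u ^ 2 := le_self_pow₀ hu1 two_ne_zero
    have h5 : (M : ℝ) ≤ ((PR \ (bad1 ∪ bad2)).card : ℝ) := by linarith
    exact_mod_cast h5
  obtain ⟨A, hAgood, hAcard⟩ := Finset.exists_subset_card_eq hgood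
  have hAmem : ∀ p ∈ A, p.Prime ∧ u ^ 5 ≤ (p : ℝ) ∧ (p : ℝ) ≤ 2 * u ^ 5 ∧
      finrank ℚ K ≤ 2 * unr K p ∧ Algebra.adjoin ℚ
      {((x : 𝓞 K) : K) ^ p, ((y : 𝓞 K) : K) ^ p} = ⊤ := by
    intro p hp
    have h1 := hAgood hp
    rw [Finset.mem_sdiff, Finset.mem_union, not_or, hbad1, hbad2, Finset.mem_filter,
      Finset.mem_filter] at h1
    obtain ⟨h0, h5, h6⟩ := h1
    obtain ⟨h2, h3, h4⟩ := hPR p h0
    refine ⟨h2, h3, h4, ?_, ?_⟩
    · by_contra hcon
      exact h5 ⟨h0, not_le.1 hcon⟩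
    · by_contra hcon
      exact h6 ⟨h0, hcon⟩
  -- the zero estimate
  obtain ⟨J, hJ1, hJ2, hJ3⟩ := hc K ((x : 𝓞 K) : K) ((y : 𝓞 K) : K) A L hL1 hP.ne1
    (by
      obtain ⟨ρ, h⟩ := hP.off1
      exact ⟨ρ, h⟩)
    (fun p hp => hW p (hAmem p hp).1.one_lt.le (hAmem p hp).2.2.1)
  obtain ⟨L1, hL1def⟩ : ∃ L1 : ℕ, L1 = 2 * L * A.card := ⟨_, rfl⟩
  rw [← hL1def] at hJ1
  have hL1le : (L1 : ℝ) * (s * u ^ 12) ≤ 20 * D := by
    rw [hL1def, hAcard]
    push_cast
    have h1 : (M : ℝ) ≤ 2 * u ^ 2 := by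
      have : 1 ≤ u ^ 2 := one_le_pow₀ hu1
      linarith
    calc 2 * (L : ℝ) * M * (s * u ^ 12) ≤ 2 * L * (2 * u ^ 2) * (s * u ^ 12) := by gcongr
      _ = 4 * (L * (s * u ^ 14)) := by ring
      _ ≤ 4 * (5 * D) := by gcongr
      _ = 20 * D := by ring
  have hL1D : (L1 : ℝ) ≤ D := by
    have h1 : 20 * (L1 : ℝ) ≤ (L1 : ℝ) * (s * u ^ 12) := by
      have h2 : 20 ≤ s * u ^ 12 := by
        have e1 : u ≤ u ^ 12 := le_self_pow₀ hu1 (by norm_num)
        have e2 : 1 * u ^ 12 ≤ s * u ^ 12 := by gcongr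
        linarith
      have h3 : (0 : ℝ) ≤ L1 := Nat.cast_nonneg _
      nlinarith
    linarith
  have hL10 : (0 : ℝ) ≤ L1 := Nat.cast_nonneg _
  have hlogL : Real.log ((L1 : ℝ) + 1) ≤ k * l := by
    rw [hldef]
    exact hE.log_le hL10 (by rw [← hDdef]; exact hL1D)
  have hsL1 : s * (2 * L1 * u) ≤ D := by
    have e1 : 40 * (s * L1 * u) ≤ (s * L1 * u) * u ^ 11 := by
      have : 40 ≤ u ^ 11 := by
        have : u ≤ u ^ 11 := le_self_pow₀ hu1 (by norm_num)
        linarith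
      have e2 : 0 ≤ s * L1 * u := by positivity
      nlinarith
    have e3 : (s * L1 * u) * u ^ 11 = L1 * (s * u ^ 12) := by ring
    linarith
  have hJcard : u ^ 2 * D ≤ (J.card : ℝ) := by
    have h1 : A.card * finrank ℚ K ≤ J.card := by
      calc A.card * finrank ℚ K = ∑ p ∈ A, finrank ℚ K := by
            rw [Finset.sum_const, smul_eq_mul]
        _ = ∑ p ∈ A, finrank ℚ (Algebra.adjoin ℚ
            {((x : 𝓞 K) : K) ^ p, ((y : 𝓞 K) : K) ^ p} : Subalgebra ℚ K) := by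
            refine Finset.sum_congr rfl fun p hp => ?_
            rw [(hAmem p hp).2.2.2.2]
            exact (Subalgebra.topEquiv (R := ℚ) (A := K)).symm.toLinearEquiv.finrank_eq
        _ ≤ J.card := hJ3
    have h2 : (M : ℝ) * D ≤ J.card := by
      rw [← hAcard, hDdef]
      exact_mod_cast h1
    calc u ^ 2 * D ≤ (M : ℝ) * D := by gcongr
      _ ≤ _ := h2
  -- the pigeonhole principle
  obtain ⟨c, hc1, ⟨m0, hm0, hc2⟩, hc3⟩ := hp K (x : 𝓞 K) (y : 𝓞 K) J (k + 2)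
    (fun ρ => ((L1 : ℝ) + 1) ^ (2 * (k + 2) + 2) * wt S (2 * L1 * u) ρ)
    (fun ρ => by
      have h1 : (1 : ℝ) ≤ ((L1 : ℝ) + 1) ^ (2 * (k + 2) + 2) := by
        apply one_le_pow₀
        linarith
      have h2 := one_le_wt (S := S) (v := 2 * L1 * u)
        (mul_nonneg (mul_nonneg zero_le_two (Nat.cast_nonneg _)) hu0.le) ρ
      exact one_le_mul_of_one_le_of_one_le h1 h2)
    (fun ρ a b ha hb => pig_bound2 hP hu0.le hJ1 ρ ha hb) (by
      have h1 : ∑ ρ : K →+* ℂ, Real.log (6 * (((L1 : ℝ) + 1) ^ (2 * (k + 2) + 2) *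
          wt S (2 * L1 * u) ρ)) =
          D * (Real.log 6 + (2 * ((k : ℝ) + 2) + 2) * Real.log (L1 + 1)) + s * (2 * L1 * u) := by
        have h2 : ∀ ρ : K →+* ℂ, Real.log (6 * (((L1 : ℝ) + 1) ^ (2 * (k + 2) + 2) *
            wt S (2 * L1 * u) ρ)) =
            (Real.log 6 + (2 * ((k : ℝ) + 2) + 2) * Real.log (L1 + 1)) +
              Real.log (wt S (2 * L1 * u) ρ) := by
          intro ρ
          have hw := wt_pos (S := S) (2 * L1 * u) ρ
          have hL1' : (0 : ℝ) < ((L1 : ℝ) + 1) ^ (2 * (k + 2) + 2) := by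
            apply pow_pos
            linarith
          rw [Real.log_mul (by norm_num) (mul_pos hL1' hw).ne', Real.log_mul hL1'.ne' hw.ne',
            Real.log_pow]
          push_cast
          ring
        simp_rw [h2]
        rw [Finset.sum_add_distrib, sum_log_wt, Finset.sum_const, Finset.card_univ,
          NumberField.Embeddings.card, nsmul_eq_mul, hDdef, hsdef]
      rw [h1]
      push_cast
      exact num_pig hu hl hbig hD1 hlogL hsL1 hJcard)
  -- a prime where the polynomial does not vanish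
  obtain ⟨p, hpA, hne⟩ : ∃ p ∈ A, ev J c ((x : 𝓞 K) ^ p) ((y : 𝓞 K) ^ p) ≠ 0 := by
    by_contra hcon
    push Not at hcon
    rw [Fintype.linearIndependent_iff] at hJ2
    have h1 := hJ2 (fun m => (c (m : ℕ × ℕ) : ℚ)) (by
      funext p
      have h2 := hcon p p.2
      have h3 : (algebraMap (𝓞 K) K) (ev J c ((x : 𝓞 K) ^ (p : ℕ)) ((y : 𝓞 K) ^ (p : ℕ))) = 0 := by
        rw [h2, map_zero]
      rw [Finset.sum_apply, Pi.zero_apply, ← h3]
      unfold ev
      rw [map_sum, ← Finset.sum_coe_sort J]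
      refine Finset.sum_congr rfl fun m _ => ?_
      rw [Pi.smul_apply, map_mul, map_mul, map_intCast, map_pow, map_pow, map_pow, map_pow,
        Algebra.smul_def, map_intCast, mul_assoc]) ⟨m0, hm0⟩
    apply hc2
    exact_mod_cast h1
  obtain ⟨hpp, hp1, hp2, hp3, _⟩ := hAmem p hpA
  have h1 := hg K p hpp (k + 2) J c (x : 𝓞 K) (y : 𝓞 K) hc3 hne
  have h2 := gain_bound2 hP hu0.le hJ1 hc1 p hne
  have h3 : 5 * l ≤ Real.log p := by
    calc 5 * l = Real.log (u ^ 5) := by rw [Real.log_pow, hldef]; norm_num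
      _ ≤ Real.log p := Real.log_le_log (by positivity) hp1
  have h4 : D / 2 ≤ (unr K p : ℝ) := by
    have : D ≤ 2 * (unr K p : ℝ) := by
      rw [hDdef]
      exact_mod_cast hp3
    linarith
  have h5 : s * (2 * (p * L1) * u) ≤ D := by
    have e1 : 80 * (s * L1 * u ^ 6) ≤ (s * L1 * u ^ 6) * u ^ 6 := by
      have : 80 ≤ u ^ 6 := by
        have : u ≤ u ^ 6 := le_self_pow₀ hu1 (by norm_num)
        linarith
      have e2 : 0 ≤ s * L1 * u ^ 6 := by positivity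
      nlinarith
    have e3 : (s * L1 * u ^ 6) * u ^ 6 = L1 * (s * u ^ 12) := by ring
    calc s * (2 * (p * L1) * u) ≤ s * (2 * ((2 * u ^ 5) * L1) * u) := by gcongr
      _ = 4 * (s * L1 * u ^ 6) := by ring
      _ ≤ D := by linarith
  have h6 : ((k : ℝ) + 2) * (D / 2) * (5 * l) ≤ D * (2 * (k * l)) + D := by
    calc ((k : ℝ) + 2) * (D / 2) * (5 * l) ≤ ((k : ℝ) + 2) * (unr K p : ℝ) * Real.log p := by
          gcongr
      _ = ((k + 2 : ℕ) : ℝ) * (unr K p : ℝ) * Real.log p := by push_cast; ring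
      _ ≤ D * (2 * Real.log (L1 + 1)) + s * (2 * (p * L1) * u) := by
          rw [hDdef, hsdef]
          exact h1.trans h2
      _ ≤ D * (2 * (k * l)) + D := by gcongr
  have h7 : D * (5 / 2 * (k + 2) * l) ≤ D * (2 * (k * l) + 1) := by
    calc D * (5 / 2 * (k + 2) * l) = ((k : ℝ) + 2) * (D / 2) * (5 * l) := by ring
      _ ≤ D * (2 * (k * l)) + D := h6
      _ = _ := by ring
  have h8 := le_of_mul_le_mul_left h7 hD1
  nlinarith [mul_nonneg hk0 hl0]

end

end Pool.Agent.NH73.RO
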