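import Pool.Agent.NH69.MI.Core7
import Pool.Agent.NH73.RO.C4

/-!
# The two-variable inequality for multiplicatively independent units: torsion translates

Copy of two lemmas of `Pool.Agent.NH69.MI.Core7` (helper69).
-/

set_option autoImplicit false

open NumberField Module MvPolynomial

namespace Pool.Agent.NH73.RO

open Pool.Agent.NH69.MI

section

variable {K : Type} [Field K] [NumberField K] {S : Finset (K →+* ℂ)} {u : ℝ} {x y : (𝓞 K)ˣ}

/-- no torsion translate of large order -/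
lemma tors_false (hta : S_TA) (hdegg : S_DEGG) (hP : Pair3 K S u x y)
    (P : MvPolynomial (Fin 2) ℤ) (ω M : ℕ) (ρ : K →+* ℂ) (ξ : Fin 2 → ℂ) (hP0 : P ≠ 0)
    (hω : ∀ i, P.degreeOf i ≤ ω) (hM : 0 < M) (h1 : ξ ^ M = 1) (h2 : ∀ k : ℕ, ξ ^ k = 1 → M ∣ k)
    (h3 : aeval (fun i => ξ i * ρ (![((x : 𝓞 K) : K), ((y : 𝓞 K) : K)] i)) P = 0)
    (h4 : (2 * ω * finrank ℚ K) ^ 2 * M < Nat.totient M ^ 2)
    (h5 : S.card * ω < finrank ℚ K) : False := by
  obtain ⟨c, N, hc, hN, hle⟩ := hta K ![((x : 𝓞 K) : K), ((y : 𝓞 K) : K)] P ω M ρ ξ (by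
    intro i
    fin_cases i
    · exact hP.ne1
    · exact hP.ne2) hP0 hω hM h1 h2 h3 h4
  simp only [Matrix.cons_val_zero, Matrix.cons_val_one] at hle
  have hval : ∀ ρ : K →+* ℂ, ‖ρ ((((x : 𝓞 K) : K) ^ c 0 * ((y : 𝓞 K) : K) ^ c 1) ^ N)‖ =
      (‖ρ ((x : 𝓞 K) : K)‖ ^ c 0 * ‖ρ ((y : 𝓞 K) : K)‖ ^ c 1) ^ N := by
    intro ρ
    rw [map_pow, map_mul, map_zpow₀, map_zpow₀, norm_pow, norm_mul, norm_zpow, norm_zpow]
  have h6 := hdegg K S ((((x : 𝓞 K) : K) ^ c 0 * ((y : 𝓞 K) : K) ^ c 1) ^ N) (by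
    intro ρ hρ
    rw [hval, hP.circ1 ρ hρ, hP.circ2 ρ hρ]
    simp) (by
    obtain ⟨ρ, hρ⟩ := hP.ind (c 0 * N) (c 1 * N) (by
      have hN' : (N : ℤ) ≠ 0 := by exact_mod_cast (by omega : N ≠ 0)
      by_contra hcon
      push Not at hcon
      apply hc
      funext i
      fin_cases i
      · exact (mul_eq_zero.1 hcon.1).resolve_right hN'
      · exact (mul_eq_zero.1 hcon.2).resolve_right hN')
    refine ⟨ρ, ?_⟩
    rw [hval, mul_pow, ← zpow_natCast, ← zpow_natCast, ← zpow_mul, ← zpow_mul]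
    exact hρ)
  have h7 : S.card * finrank ℚ (IntermediateField.adjoin ℚ
      {(((x : 𝓞 K) : K) ^ c 0 * ((y : 𝓞 K) : K) ^ c 1) ^ N}) ≤ S.card * ω :=
    Nat.mul_le_mul_left _ hle
  omega

/-- the degree in the first variable is positive -/
lemma deg0_pos (hta : S_TA) (hdegg : S_DEGG) (hP : Pair3 K S u x y)
    (P : MvPolynomial (Fin 2) ℤ) (ω : ℕ) (hP0 : P ≠ 0)
    (hω : ∀ i, P.degreeOf i ≤ ω) (hPz : aeval ![((x : 𝓞 K) : K), ((y : 𝓞 K) : K)] P = 0)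
    (h5 : S.card * ω < finrank ℚ K) : 1 ≤ P.degreeOf 0 := by
  by_contra hcon
  have h0 : P.degreeOf 0 = 0 := by omega
  obtain ⟨M, hM1, hM2⟩ := Nat.exists_infinite_primes ((2 * ω * finrank ℚ K) ^ 2 + 3)
  obtain ⟨ρ, _⟩ := hP.off1
  have hprim := Complex.isPrimitiveRoot_exp M hM2.ne_zero
  refine tors_false hta hdegg hP P ω M ρ ![Complex.exp (2 * Real.pi * Complex.I / M), 1] hP0 hω
    hM2.pos ?_ ?_ ?_ ?_ h5
  · funext i
    fin_cases i
    · exact hprim.pow_eq_one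
    · exact one_pow M
  · intro k hk
    have h1 := congrFun hk 0
    rw [Pi.pow_apply] at h1
    exact hprim.dvd_of_pow_eq_one k h1
  · rw [aeval_congr_1 P h0 _ (fun i => ρ (![((x : 𝓞 K) : K), ((y : 𝓞 K) : K)] i)) (by simp)]
    have h1 : ρ (aeval ![((x : 𝓞 K) : K), ((y : 𝓞 K) : K)] P) =
        aeval (fun i => ρ (![((x : 𝓞 K) : K), ((y : 𝓞 K) : K)] i)) P := by
      rw [aeval_def, aeval_def, hom_eval₂]
      congr 1
      exact RingHom.ext_int _ _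
    rw [← h1, hPz, map_zero]
  · rw [Nat.totient_prime hM2]
    obtain ⟨m, rfl⟩ : ∃ m, M = m + 1 := ⟨M - 1, by omega⟩
    rw [Nat.add_sub_cancel]
    have h1 : (2 * ω * finrank ℚ K) ^ 2 + 2 ≤ m := by omega
    nlinarith

end

end Pool.Agent.NH73.RO
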