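import Pool.Agent.NH69.MI.All
import Pool.Agent.NH73.RO.C8

/-!
# The two-variable inequality for multiplicatively independent units
-/

set_option autoImplicit false

open NumberField Module MvPolynomial

namespace Pool.Agent.NH73.RO

open Pool.Agent.NH69.MI

/-- The two-variable inequality: for `κ > 0` and `D = [K : ℚ]` large there is no such pair of
units generating `K`, with `η = D ^ κ`, if `|S| ^ 2 D ^ (100 κ) ≤ D`. -/
def S_CORE3 : Prop := ∀ κ : ℝ, 0 < κ → ∃ D₀ : ℕ, ∀ (K : Type) [Field K] [NumberField K]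
  (S : Finset (K →+* ℂ)) (u : ℝ) (x y : (𝓞 K)ˣ), D₀ ≤ finrank ℚ K →
  u = (finrank ℚ K : ℝ) ^ κ → (S.card : ℝ) ^ 2 * u ^ 100 ≤ finrank ℚ K →
  Algebra.adjoin ℚ {((x : 𝓞 K) : K), ((y : 𝓞 K) : K)} = ⊤ → ¬ Pair3 K S u x y

theorem t_core3 (hg : S_GAIN) (hr : S_RAM) (hd : S_DISC) (hs : S_SPAN) (hc : S_CRT) (hp : S_PIG)
    (hprm : S_PRM) (hdega : S_DEGA) (hrk : S_RK) (hfib : S_FIB) (hta : S_TA) (hpigr : S_PIGR)
    (hvan : S_VAN) (hdegg : S_DEGG) : S_CORE3 := by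
  intro κ hκ
  obtain ⟨X₀, hX₀⟩ := hprm
  obtain ⟨k, hk⟩ : ∃ k : ℕ, 1 + κ ≤ κ * k := by
    obtain ⟨k, hk⟩ := exists_nat_ge ((1 + κ) / κ)
    refine ⟨k, ?_⟩
    rw [div_le_iff₀ hκ] at hk
    linarith
  obtain ⟨u₀, hu₀1, hu₀⟩ := large2 (10 ^ 6 * ((k : ℝ) + 3) ^ 3) (X₀ + 1)
  refine ⟨⌈u₀ ^ (1 / κ)⌉₊, ?_⟩
  intro K _ _ S u x y hD hu hS hgen hP
  have hDpos : 0 < finrank ℚ K := finrank_pos
  have hDR : (0 : ℝ) < finrank ℚ K := by exact_mod_cast hDpos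
  have huu₀ : u₀ ≤ u := by
    have h1 : u₀ ^ (1 / κ) ≤ (finrank ℚ K : ℝ) := by
      refine (Nat.le_ceil _).trans ?_
      exact_mod_cast hD
    calc u₀ = (u₀ ^ (1 / κ)) ^ κ := by
          rw [← Real.rpow_mul (by linarith), one_div, inv_mul_cancel₀ hκ.ne', Real.rpow_one]
      _ ≤ (finrank ℚ K : ℝ) ^ κ := by
          apply Real.rpow_le_rpow _ h1 hκ.le
          positivity
      _ = u := hu.symm
  obtain ⟨g1, g2, g3, g4⟩ := hu₀ u huu₀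
  have hE : Env K S u k X₀ := by
    refine ⟨g1, g2, hS, ?_, g3, g4⟩
    have h1 : (1 : ℝ) ≤ finrank ℚ K := by exact_mod_cast hDpos
    calc (finrank ℚ K : ℝ) + 1 ≤ finrank ℚ K * u := by nlinarith
      _ = (finrank ℚ K : ℝ) ^ (1 + κ) := by
          rw [Real.rpow_add hDR, Real.rpow_one, hu]
      _ ≤ (finrank ℚ K : ℝ) ^ (κ * k) := Real.rpow_le_rpow_of_exponent_le h1 hk
      _ = u ^ k := by
          rw [Real.rpow_mul hDR.le, ← hu, Real.rpow_natCast]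
  by_cases h : ∃ G : MvPolynomial (Fin 2) ℤ, G ≠ 0 ∧
      (∀ i, G.degreeOf i ≤ ⌊S.card * u ^ 20⌋₊) ∧
      aeval ![((x : 𝓞 K) : K), ((y : 𝓞 K) : K)] G = 0
  · obtain ⟨G, h1, h2, h3⟩ := h
    exact t_rel hrk hfib hta hpigr hvan hdegg hX₀ hE hP hgen G h1 h2 h3
  · refine t_main hg hr hd hs hc hp hdega hX₀ hE hP hgen ?_
    intro G h1 h2 h3
    exact h ⟨G, h1, h2, h3⟩

theorem core3 : S_CORE3 :=
  t_core3 (t_gain t_pad) t_ram t_disc t_span t_crt t_pig t_prm t_dega t_rk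
    (t_fib (t_bezc t_bez)) t_ta (t_pigr t_pa) (t_van t_bez) t_degg

end Pool.Agent.NH73.RO
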