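import Pool.Agent.NH73.RO.Stm

/-!
# Division algebras of odd dimension contain no quadratic extensions of their centre
-/

set_option autoImplicit false

open NumberField Module Polynomial

namespace Pool.Agent.NH73.RO

theorem t_div : S_DIV := by
  intro L D _ _ _ hodd b p q hb
  by_contra hcon
  let f : L[X] := X ^ 2 - C p * X - C q
  have hf : f = X ^ 2 - C p * X - C q := rfl
  have hdeg : f.natDegree = 2 := by
    rw [hf]
    compute_degree!
  have hmon : f.Monic := by
    rw [hf]
    monicity!
  have hf0 : f ≠ 0 := hmon.ne_zero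
  have hev : aeval b f = 0 := by
    rw [hf]
    simp only [map_sub, map_pow, aeval_X, map_mul, aeval_C]
    rw [pow_two, hb]
    simp
  have hnoroot : ∀ r : L, ¬ f.IsRoot r := by
    intro r hr
    have h1 : r ^ 2 - p * r - q = 0 := by
      have := hr
      rw [hf, IsRoot.def] at this
      simpa using this
    have h2 : (b - algebraMap L D r) * (b - algebraMap L D (p - r)) = 0 := by
      have h3 : b * algebraMap L D (p - r) = algebraMap L D (p - r) * b :=
        (Algebra.commutes (p - r) b).symm
      have h4 : algebraMap L D r * algebraMap L D (p - r) = algebraMap L D (r * (p - r)) :=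
        (map_mul _ _ _).symm
      have h5 : r * (p - r) = - q := by linear_combination -h1
      rw [sub_mul, mul_sub, mul_sub, hb, h3, h4, h5, map_sub, map_neg, sub_mul]
      abel
    rcases mul_eq_zero.1 h2 with h3 | h3
    · exact hcon ⟨r, (sub_eq_zero.1 h3).symm⟩
    · exact hcon ⟨p - r, (sub_eq_zero.1 h3).symm⟩
  have hirr : Irreducible f := by
    rw [hmon.irreducible_iff_roots_eq_zero_of_degree_le_three (by omega) (by omega)]
    rw [Multiset.eq_zero_iff_forall_notMem]
    intro r hr
    exact hnoroot r (isRoot_of_mem_roots hr)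
  have : Fact (Irreducible f) := ⟨hirr⟩
  let φ : AdjoinRoot f →ₐ[L] D := Ideal.Quotient.liftₐ (Ideal.span {f}) (aeval b) (by
    intro a ha
    rw [Ideal.mem_span_singleton] at ha
    obtain ⟨c, rfl⟩ := ha
    rw [map_mul, hev, zero_mul])
  let _ : Module (AdjoinRoot f) D := Module.compHom D (φ : AdjoinRoot f →+* D)
  have hsm : ∀ (x : AdjoinRoot f) (d : D), x • d = φ x * d := fun _ _ => rfl
  have : IsScalarTower L (AdjoinRoot f) D := by
    refine ⟨fun l x d => ?_⟩
    rw [hsm, hsm, map_smul, smul_mul_assoc]
  have h1 := Module.finrank_mul_finrank L (AdjoinRoot f) D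
  have h2 : finrank L (AdjoinRoot f) = 2 := by
    rw [(AdjoinRoot.powerBasis hf0).finrank, AdjoinRoot.powerBasis_dim, hdeg]
  rw [h2] at h1
  rw [← h1] at hodd
  exact (Nat.not_odd_iff_even.2 ⟨_, two_mul _⟩) hodd

end Pool.Agent.NH73.RO
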