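import Pool.Agent.NH73.RO.Fin
import Pool.Agent.NH73.RO.Div

/-!
# Matrices from division algebras of odd degree
-/

set_option autoImplicit false

open NumberField Module Polynomial

namespace Pool.Agent.NH73.RO

/-- the numbers `u ^ c + u ^ (-c)` -/
lemma pow_add_inv {k Ω : Type} [Field k] [Field Ω] [Algebra k Ω] (u : Ω) (hu : u ≠ 0) (t : k)
    (h : u + u⁻¹ = algebraMap k Ω t) (m : ℕ) :
    (∃ a : k, u ^ m + (u ^ m)⁻¹ = algebraMap k Ω a) ∧
      ∃ a : k, u ^ (m + 1) + (u ^ (m + 1))⁻¹ = algebraMap k Ω a := by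
  induction m with
  | zero =>
    refine ⟨⟨2, ?_⟩, t, ?_⟩
    · rw [pow_zero, inv_one, map_ofNat]
      norm_num
    · rw [zero_add, pow_one, h]
  | succ m ih =>
    obtain ⟨⟨a, ha⟩, b, hb⟩ := ih
    refine ⟨⟨b, hb⟩, t * b - a, ?_⟩
    rw [map_sub, map_mul, ← ha, ← hb, ← h]
    field_simp
    ring

lemma zpow_add_inv {k Ω : Type} [Field k] [Field Ω] [Algebra k Ω] (u : Ω) (hu : u ≠ 0) (t : k)
    (h : u + u⁻¹ = algebraMap k Ω t) (c : ℤ) :
    ∃ a : k, u ^ c + (u ^ c)⁻¹ = algebraMap k Ω a := by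
  obtain ⟨m, rfl | rfl⟩ := c.eq_nat_or_neg
  · rw [zpow_natCast]
    exact (pow_add_inv u hu t h m).1
  · obtain ⟨a, ha⟩ := (pow_add_inv u hu t h m).1
    refine ⟨a, ?_⟩
    rw [zpow_neg, zpow_natCast, inv_inv, add_comm]
    exact ha

lemma pow_mulVec' {F : Type} [Field F] {n : ℕ} (T : Matrix (Fin n) (Fin n) F) (a : F)
    (v : Fin n → F) (h : T.mulVec v = a • v) (m : ℕ) : (T ^ m).mulVec v = a ^ m • v := by
  induction m with
  | zero => simp
  | succ m ih =>
    rw [pow_succ, ← Matrix.mulVec_mulVec, h, Matrix.mulVec_smul, ih, smul_smul, pow_succ, mul_comm]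

/-- In a division algebra of odd dimension over its subfield `L`, some power of an element whose matrix
has rank one belongs to `L`. -/
theorem mem_of_rankOne {k : Type} [Field k] [NumberField k] {n : ℕ} (hn : 0 < n)
    (A : Matrix (Fin n) (Fin n) (𝓞 k)) (hA : RankOne A)
    (L D : Type) [Field L] [DivisionRing D] [Algebra k L] [Algebra L D] [Algebra k D]
    [IsScalarTower k L D] (φ : D →ₐ[k] Matrix (Fin n) (Fin n) k) (hodd : Odd (finrank L D)) (d : D)
    (hd : φ d = A.map (algebraMap (𝓞 k) k)) :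
    ∃ N : ℕ, 0 < N ∧ d ^ N ∈ Set.range (algebraMap L D) := by
  obtain ⟨u, ⟨hu0, -, -, t, hut⟩, N, hN, hpow⟩ := hA
  refine ⟨N, hN, ?_⟩
  obtain ⟨A', hA'⟩ : ∃ A' : Matrix (Fin n) (Fin n) (AlgebraicClosure k),
      A' = (A.map (algebraMap (𝓞 k) k)).map (algebraMap k (AlgebraicClosure k)) := ⟨_, rfl⟩
  -- an eigenvector
  have hdeg : A'.charpoly.degree ≠ 0 := by
    rw [Matrix.charpoly_degree_eq_dim, Fintype.card_fin]
    exact_mod_cast hn.ne'
  obtain ⟨β, hβ⟩ := IsAlgClosed.exists_root A'.charpoly hdeg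
  have hβ' : aeval β (A.charpoly.map (algebraMap (𝓞 k) k)) = 0 := by
    have h1 : A'.charpoly = (A.charpoly.map (algebraMap (𝓞 k) k)).map
        (algebraMap k (AlgebraicClosure k)) := by
      rw [hA', Matrix.charpoly_map, Matrix.charpoly_map]
    rw [h1, Polynomial.IsRoot.def, Polynomial.eval_map] at hβ
    exact hβ
  obtain ⟨c, hc⟩ := hpow β hβ'
  obtain ⟨v, hv0, hv⟩ : ∃ v : Fin n → AlgebraicClosure k, v ≠ 0 ∧ A'.mulVec v = β • v := by
    rw [Polynomial.IsRoot.def, Matrix.eval_charpoly, ← Matrix.exists_mulVec_eq_zero_iff] at hβ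
    obtain ⟨v, hv, h⟩ := hβ
    refine ⟨v, hv, ?_⟩
    rw [Matrix.sub_mulVec, sub_eq_zero] at h
    rw [← h]
    ext i
    simp [Matrix.scalar_apply, Matrix.mulVec_diagonal]
  have hvN := pow_mulVec' A' β v hv N
  obtain ⟨w, hw⟩ : ∃ w, w = β ^ N := ⟨_, rfl⟩
  rw [← hw] at hvN
  have hwu : w = u ^ c := hw.trans hc
  have hw0 : w ≠ 0 := by
    rw [hwu]
    exact zpow_ne_zero _ hu0
  obtain ⟨s, hs⟩ := zpow_add_inv u hu0 t hut c
  rw [← hwu] at hs
  have hquad : w * w = algebraMap k (AlgebraicClosure k) s * w - 1 := by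
    rw [← hs, add_mul, inv_mul_cancel₀ hw0]
    ring
  -- the element of `D`
  obtain ⟨x, hx⟩ : ∃ x : D, x = d ^ N * d ^ N - s • d ^ N + 1 := ⟨_, rfl⟩
  have hφx : (φ x).map (algebraMap k (AlgebraicClosure k)) =
      A' ^ N * A' ^ N - algebraMap k (AlgebraicClosure k) s • A' ^ N + 1 := by
    have e1 : ∀ B : Matrix (Fin n) (Fin n) k, B.map (algebraMap k (AlgebraicClosure k)) =
        (algebraMap k (AlgebraicClosure k)).mapMatrix B := fun B => rfl
    have e2 : A' = (algebraMap k (AlgebraicClosure k)).mapMatrix (φ d) := by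
      rw [hA', hd]
      rfl
    rw [hx, map_add, map_sub, map_mul, map_pow, map_smul, map_pow, map_one, e1, map_add, map_sub,
      map_mul, map_pow, map_one, ← e2]
    congr 2
    have e3 : (s • φ d ^ N).map (algebraMap k (AlgebraicClosure k)) =
        algebraMap k (AlgebraicClosure k) s • (φ d ^ N).map (algebraMap k (AlgebraicClosure k)) := by
      ext i j
      simp only [Matrix.map_apply, Matrix.smul_apply, smul_eq_mul, map_mul]
    rw [← e1, e3, e1, map_pow, ← e2]
  have hker : ((φ x).map (algebraMap k (AlgebraicClosure k))).mulVec v = 0 := by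
    rw [hφx, Matrix.add_mulVec, Matrix.sub_mulVec, ← Matrix.mulVec_mulVec, hvN, Matrix.mulVec_smul,
      hvN, Matrix.smul_mulVec, hvN, Matrix.one_mulVec, smul_smul, smul_smul, ← sub_smul, hquad]
    rw [sub_sub_cancel_left, neg_smul, one_smul, neg_add_cancel]
  have hx0 : x = 0 := by
    by_contra hne
    have h1 : φ x * φ x⁻¹ = 1 := by
      rw [← map_mul, mul_inv_cancel₀ hne, map_one]
    have h2 : ((φ x).map (algebraMap k (AlgebraicClosure k))).det = 0 :=
      Matrix.exists_mulVec_eq_zero_iff.1 ⟨v, hv0, hker⟩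
    have h3 : (φ x).det = 0 := by
      have h4 : ((φ x).map (algebraMap k (AlgebraicClosure k))).det =
          algebraMap k (AlgebraicClosure k) (φ x).det :=
        ((algebraMap k (AlgebraicClosure k)).map_det (φ x)).symm
      rw [h4, map_eq_zero] at h2
      exact h2
    have h5 := congrArg Matrix.det h1
    rw [Matrix.det_mul, h3, zero_mul, Matrix.det_one] at h5
    exact zero_ne_one h5
  refine t_div L D hodd (d ^ N) (algebraMap k L s) (-1) ?_
  have h6 : d ^ N * d ^ N = s • d ^ N - 1 := by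
    have h7 : d ^ N * d ^ N - s • d ^ N + 1 = 0 := by rw [← hx, hx0]
    rw [sub_add_eq_add_sub, sub_eq_zero] at h7
    rw [← h7]
    abel
  rw [h6, Algebra.smul_def, ← IsScalarTower.algebraMap_apply, map_neg, map_one, sub_eq_add_neg]

end Pool.Agent.NH73.RO
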