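import Pool.Agent.NH73.RO.Fin

/-!
# Matrices with an identity block: the unit and the embeddings do not depend on the size
-/

set_option autoImplicit false

open NumberField Module Polynomial Pool.Agent.H225R3.Marg

namespace Pool.Agent.NH73.RO

open Pool.Agent.NH69.MI Pool.Agent.NH69.MI.Mat

/-- the matrix `A` with an identity block of size `r` -/
def blk {R : Type} [CommRing R] {n : ℕ} (r : ℕ) (A : Matrix (Fin n) (Fin n) R) :
    Matrix (Fin (n + r)) (Fin (n + r)) R :=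
  Matrix.reindexAlgEquiv R R finSumFinEquiv
    (Matrix.fromBlocks A 0 0 (1 : Matrix (Fin r) (Fin r) R))

lemma blk_charpoly {R : Type} [CommRing R] {n : ℕ} (r : ℕ) (A : Matrix (Fin n) (Fin n) R) :
    (blk r A).charpoly = A.charpoly * (X - 1) ^ r := by
  have h1 : blk r A = Matrix.reindex finSumFinEquiv finSumFinEquiv
    (Matrix.fromBlocks A 0 0 (1 : Matrix (Fin r) (Fin r) R)) := rfl
  rw [h1, Matrix.charpoly_reindex, Matrix.charpoly_fromBlocks_zero₁₂, Matrix.charpoly_one,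
    Fintype.card_fin]

lemma blk_map {R T : Type} [CommRing R] [CommRing T] (f : R →+* T) {n : ℕ} (r : ℕ)
    (A : Matrix (Fin n) (Fin n) R) : f.mapMatrix (blk r A) = blk r (f.mapMatrix A) := by
  have h1 : Matrix.fromBlocks (f.mapMatrix A) 0 0 (1 : Matrix (Fin r) (Fin r) T) =
      (Matrix.fromBlocks A 0 0 (1 : Matrix (Fin r) (Fin r) R)).map f := by
    rw [Matrix.fromBlocks_map]
    congr 1
    · ext i j; simp
    · ext i j; simp
    · ext i j
      simp [Matrix.one_apply, apply_ite f]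
  have h2 : blk r (f.mapMatrix A) = Matrix.reindexAlgEquiv T T finSumFinEquiv
    (Matrix.fromBlocks (f.mapMatrix A) 0 0 (1 : Matrix (Fin r) (Fin r) T)) := rfl
  rw [h2, h1]
  rfl

lemma blk_unit {R : Type} [CommRing R] {n : ℕ} (r : ℕ) (A : Matrix (Fin n) (Fin n) R)
    (h : IsUnit A) : IsUnit (blk r A) := by
  have h1 : IsUnit (Matrix.fromBlocks A 0 0 (1 : Matrix (Fin r) (Fin r) R)) := by
    rw [Matrix.isUnit_iff_isUnit_det, Matrix.det_fromBlocks_zero₁₂, Matrix.det_one, mul_one,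
      ← Matrix.isUnit_iff_isUnit_det]
    exact h
  exact h1.map (Matrix.reindexAlgEquiv R R finSumFinEquiv)

lemma blocks_pow {R : Type} [CommRing R] {n : ℕ} (r : ℕ) (A : Matrix (Fin n) (Fin n) R) (N : ℕ) :
    (Matrix.fromBlocks A 0 0 (1 : Matrix (Fin r) (Fin r) R)) ^ N =
      Matrix.fromBlocks (A ^ N) 0 0 1 := by
  induction N with
  | zero => rw [pow_zero, pow_zero, Matrix.fromBlocks_one]
  | succ N ih =>
    rw [pow_succ, ih, Matrix.fromBlocks_multiply, pow_succ]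
    congr 1 <;> simp

lemma blocks_pow' {R : Type} [CommRing R] {n : ℕ} (r : ℕ) (A : Matrix (Fin n) (Fin n) R) (N : ℕ) :
    (Matrix.fromBlocks A 0 0 (0 : Matrix (Fin r) (Fin r) R)) ^ (N + 1) =
      Matrix.fromBlocks (A ^ (N + 1)) 0 0 0 := by
  induction N with
  | zero => rw [zero_add, pow_one, pow_one]
  | succ N ih =>
    rw [pow_succ, ih, Matrix.fromBlocks_multiply, pow_succ _ (N + 1)]
    congr 1 <;> simp

lemma blk_nil {R : Type} [CommRing R] {n : ℕ} (r : ℕ) (A : Matrix (Fin n) (Fin n) R) (N : ℕ)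
    (h : IsNilpotent (blk r A ^ N - 1)) : IsNilpotent (A ^ N - 1) := by
  obtain ⟨j, hj⟩ := h
  have h0 : (blk r A ^ N - 1) ^ (j + 1) = 0 := by
    rw [pow_succ, hj, zero_mul]
  have h1 : blk r A ^ N - 1 = Matrix.reindexAlgEquiv R R finSumFinEquiv
      (Matrix.fromBlocks (A ^ N - 1) 0 0 (0 : Matrix (Fin r) (Fin r) R)) := by
    have h2 : Matrix.fromBlocks (A ^ N - 1) 0 0 (0 : Matrix (Fin r) (Fin r) R) =
        (Matrix.fromBlocks A 0 0 (1 : Matrix (Fin r) (Fin r) R)) ^ N - 1 := by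
      rw [blocks_pow, ← Matrix.fromBlocks_one]
      ext i j
      rcases i with i | i <;> rcases j with j | j <;> simp [Matrix.one_apply]
    rw [h2, map_sub, map_pow, map_one]
    rfl
  rw [h1, ← map_pow, blocks_pow', map_eq_zero_iff _ (AlgEquiv.injective _)] at h0
  refine ⟨j + 1, ?_⟩
  ext a b
  have h3 := congrFun (congrFun h0 (Sum.inl a)) (Sum.inl b)
  simpa using h3

lemma blk_root {T : Type} [Field T] {n : ℕ} (r : ℕ) (A : Matrix (Fin n) (Fin n) T) (l : T) :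
    (blk r A).charpoly.IsRoot l → A.charpoly.IsRoot l ∨ l = 1 := by
  intro h
  rw [blk_charpoly, Polynomial.IsRoot.def, Polynomial.eval_mul] at h
  rcases mul_eq_zero.1 h with h | h
  · exact Or.inl h
  · right
    rw [Polynomial.eval_pow] at h
    have h2 : Polynomial.eval l (X - 1 : T[X]) = 0 := by
      by_contra hne
      exact (pow_ne_zero r hne) h
    simpa [sub_eq_zero] using h2

lemma blk_adm {k : Type} [Field k] [NumberField k] {δ : ℝ} {n : ℕ} (r : ℕ) {S : Finset (k →+* ℂ)}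
    {A : Matrix (Fin n) (Fin n) (𝓞 k)} (h : Adm k δ S A) : Adm k δ S (blk r A) := by
  refine ⟨blk_unit r A h.unit, ?_, h.small, fun N hN hnl => h.nil N hN (blk_nil r A N hnl)⟩
  intro σ hσ l hl
  rw [blk_map] at hl
  rcases blk_root r _ l hl with h1 | h1
  · exact h.circ σ hσ l h1
  · rw [h1, norm_one]

lemma blk_large {k : Type} [Field k] [NumberField k] {κ : ℝ} {n : ℕ} (r : ℕ)
    {S : Finset (k →+* ℂ)} {A : Matrix (Fin n) (Fin n) (𝓞 k)} (h : Large k κ S (blk r A)) :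
    Large k κ S A := by
  obtain ⟨σ, hσ, l, hl, hlog⟩ := h
  rw [blk_map] at hl
  rcases blk_root r _ l hl with h1 | h1
  · exact ⟨σ, hσ, l, h1, hlog⟩
  · exfalso
    rw [h1, norm_one, Real.log_one] at hlog
    have h2 : 0 ≤ (finrank ℚ k : ℝ) ^ κ := Real.rpow_nonneg (Nat.cast_nonneg _) _
    linarith

lemma blk_powersOf {k : Type} [Field k] [NumberField k] {n : ℕ} (r : ℕ)
    {A : Matrix (Fin n) (Fin n) (𝓞 k)} {u : AlgebraicClosure k} (h : PowersOf (blk r A) u) :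
    PowersOf A u := by
  obtain ⟨N, hN, h1⟩ := h
  refine ⟨N, hN, fun β hβ => h1 β ?_⟩
  rw [blk_charpoly, Polynomial.map_mul, map_mul, hβ, zero_mul]

/-- **One unit for each field**, for the matrices of all sizes. -/
theorem growth5 (ε : ℝ) (hε : 0 < ε) (hε1 : ε < 1 / 2) : ∃ κ : ℝ, 0 < κ ∧
    ∃ (u : ∀ (k : Type) [Field k] [NumberField k], AlgebraicClosure k)
      (X : ∀ (k : Type) [Field k] [NumberField k], Finset (k →+* ℂ)),
      (∀ (k : Type) [Field k] [NumberField k], IsRec k (u k) ∧ (X k).Nonempty) ∧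
      ∀ n : ℕ, ∃ D₀ : ℕ, ∀ (k : Type) [Field k] [NumberField k], D₀ ≤ finrank ℚ k →
        ∀ (S : Finset (k →+* ℂ)) (A : Matrix (Fin n) (Fin n) (𝓞 k)), Adm k (1 / 2 - ε) S A →
          Large k κ S A ∨ (X k ⊆ S ∧ PowersOf A (u k)) := by
  classical
  obtain ⟨κ, hκ, hgr⟩ := growth4 ε hε hε1
  choose D hD using hgr
  obtain ⟨m, hm⟩ : ∃ m : ℕ → ℕ, ∀ d, m d = Nat.findGreatest (fun j => D j ≤ d) d := ⟨_, fun _ => rfl⟩
  have hch : ∀ (k : Type) [Field k] [NumberField k], ∃ (u : AlgebraicClosure k)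
      (X : Finset (k →+* ℂ)), (IsRec k u ∧ X.Nonempty) ∧ (D (m (finrank ℚ k)) ≤ finrank ℚ k →
        ∀ (S : Finset (k →+* ℂ)) (A : Matrix (Fin (m (finrank ℚ k))) (Fin (m (finrank ℚ k))) (𝓞 k)),
          Adm k (1 / 2 - ε) S A → Large k κ S A ∨ (X ⊆ S ∧ PowersOf A u)) := by
    intro k _ _
    by_cases hd : D (m (finrank ℚ k)) ≤ finrank ℚ k
    · obtain ⟨u, X, hu, hX, h⟩ := hD (m (finrank ℚ k)) k hd
      exact ⟨u, X, ⟨hu, hX⟩, fun _ => h⟩
    · refine ⟨1, Finset.univ, ⟨isRec_one k, ?_⟩, fun h => absurd h hd⟩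
      rw [Finset.univ_nonempty_iff]
      exact ⟨(IsAlgClosed.lift : k →ₐ[ℚ] ℂ).toRingHom⟩
  choose u X hX1 hX2 using hch
  refine ⟨κ, hκ, u, X, fun k _ _ => hX1 k, fun n => ⟨max n (D n), fun k _ _ hd => ?_⟩⟩
  intro S A hA
  have hn : n ≤ finrank ℚ k := (le_max_left _ _).trans hd
  have hDn : D n ≤ finrank ℚ k := (le_max_right _ _).trans hd
  have h1 : n ≤ m (finrank ℚ k) := by
    rw [hm]
    exact Nat.le_findGreatest hn hDn
  have h2 : D (m (finrank ℚ k)) ≤ finrank ℚ k := by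
    rw [hm]
    exact Nat.findGreatest_spec (P := fun j => D j ≤ finrank ℚ k) hn hDn
  have h3 := hX2 k h2
  generalize m (finrank ℚ k) = j at h1 h3
  obtain ⟨r, rfl⟩ := Nat.exists_eq_add_of_le h1
  rcases h3 S (blk r A) (blk_adm r hA) with h | h
  · exact Or.inl (blk_large r h)
  · exact Or.inr ⟨h.1, blk_powersOf r h.2⟩

/-- The growth and the gap, with the same unit `u k` and the same set `X k` of embeddings. -/
theorem growth_gap (ε : ℝ) (hε : 0 < ε) (hε1 : ε < 1 / 2) : ∃ κ : ℝ, 0 < κ ∧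
    ∃ (u : ∀ (k : Type) [Field k] [NumberField k], AlgebraicClosure k)
      (X : ∀ (k : Type) [Field k] [NumberField k], Finset (k →+* ℂ)),
      (∀ (k : Type) [Field k] [NumberField k], IsRec k (u k) ∧ (X k).Nonempty) ∧
      ∀ n : ℕ, ∃ D₀ : ℕ, (∀ (k : Type) [Field k] [NumberField k], D₀ ≤ finrank ℚ k →
        ∀ (S : Finset (k →+* ℂ)) (A : Matrix (Fin n) (Fin n) (𝓞 k)), Adm k (1 / 2 - ε) S A →
          Large k κ S A ∨ (X k ⊆ S ∧ PowersOf A (u k))) ∧
      ∀ N : ℕ, ∃ E : ℕ, 0 < E ∧ ∀ (k : Type) [Field k] [NumberField k] (S : Finset (k →+* ℂ))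
        (A : Matrix (Fin n) (Fin n) (𝓞 k)),
        (finrank ℚ k ≤ N ∨ (S.card : ℝ) ≤ (finrank ℚ k : ℝ) ^ (1 / 2 - ε : ℝ)) → IsUnit A →
        (∀ σ : k →+* ℂ, σ ∉ S → ∀ l : ℂ, ((emb σ).mapMatrix A).charpoly.IsRoot l → ‖l‖ = 1) →
        (∀ N : ℕ, 0 < N → ¬ IsNilpotent (A ^ N - 1)) →
        (∃ σ ∈ S, ∃ l : ℂ, ((emb σ).mapMatrix A).charpoly.IsRoot l ∧ 2 ≤ ‖l‖ ^ E) ∨
          (N < finrank ℚ k ∧ X k ⊆ S ∧ PowersOf A (u k)) := by
  obtain ⟨κ, hκ, u, X, hX1, hX3⟩ := growth5 ε hε hε1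
  refine ⟨κ, hκ, u, X, fun k _ _ => hX1 k, fun n => ?_⟩
  obtain ⟨D₀, hX2⟩ := hX3 n
  refine ⟨D₀, fun k _ _ => hX2 k, fun N => ?_⟩
  obtain ⟨N', hN'⟩ : ∃ N' : ℕ, N' = max N D₀ := ⟨_, rfl⟩
  -- the degrees `≤ N'`, by `gap` (where the second alternative is not used)
  obtain ⟨E, hE0, hE⟩ := gap 1 one_pos N' n
  refine ⟨E, hE0, ?_⟩
  intro k _ _ S A hk hA hcirc hnil
  by_cases hd : finrank ℚ k ≤ N'
  · exact Or.inl (hE k S A (Or.inl hd) hA hcirc hnil)
  · have hN : N < finrank ℚ k := by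
      have : N ≤ N' := hN' ▸ le_max_left _ _
      omega
    have h1 : (S.card : ℝ) ≤ (finrank ℚ k : ℝ) ^ (1 / 2 - ε : ℝ) := by
      rcases hk with h | h
      · omega
      · exact h
    rcases hX2 k (by
      have : D₀ ≤ N' := hN' ▸ le_max_right _ _
      omega) S A ⟨hA, hcirc, h1, hnil⟩ with ⟨σ, hσ, l, hl, hlog⟩ | h
    · exact Or.inl ⟨σ, hσ, l, hl, two_le_of_log finrank_pos hκ hlog hE0⟩
    · exact Or.inr ⟨hN, h⟩

end Pool.Agent.NH73.RO
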