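import Pool.Agent.NH73.RO.Stm

/-!
# The Galois step: roots of the characteristic polynomial which are pairwise dependent
-/

set_option autoImplicit false

open NumberField Module Polynomial

namespace Pool.Agent.NH73.RO

/-- embeddings of a number field in `Ω` extend -/
theorem gal_extend {k : Type} [Field k] [NumberField k] (F : IntermediateField ℚ (AlgebraicClosure k))
    (φ : F →+* ℂ) : ∃ τ : AlgebraicClosure k →+* ℂ, ∀ x : F, τ (x : AlgebraicClosure k) = φ x := by
  let _ : Algebra F ℂ := φ.toAlgebra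
  have : Algebra.IsAlgebraic ℚ (AlgebraicClosure k) :=
    Algebra.IsAlgebraic.trans ℚ k (AlgebraicClosure k)
  have : Algebra.IsAlgebraic F (AlgebraicClosure k) :=
    Algebra.IsAlgebraic.tower_top (K := ℚ) F
  let τ : AlgebraicClosure k →ₐ[F] ℂ := IsAlgClosed.lift
  refine ⟨τ, fun x => ?_⟩
  exact τ.commutes x

/-- Kronecker in `Ω` -/
theorem gal_kron {k : Type} [Field k] [NumberField k] (γ : AlgebraicClosure k)
    (hi : IsIntegral ℤ γ) (h : ∀ τ : AlgebraicClosure k →+* ℂ, ‖τ γ‖ = 1) :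
    ∃ m : ℕ, 0 < m ∧ γ ^ m = 1 := by
  have hq : IsIntegral ℚ γ := hi.tower_top
  let F : IntermediateField ℚ (AlgebraicClosure k) := IntermediateField.adjoin ℚ {γ}
  have : FiniteDimensional ℚ F := IntermediateField.adjoin.finiteDimensional hq
  have : NumberField F := { to_charZero := inferInstance, to_finiteDimensional := inferInstance }
  let g : F := ⟨γ, IntermediateField.mem_adjoin_simple_self ℚ γ⟩
  have hg : IsIntegral ℤ g := by
    have h1 : IsIntegral ℤ (algebraMap F (AlgebraicClosure k) g) := hi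
    exact (isIntegral_algebraMap_iff (FaithfulSMul.algebraMap_injective F _)).1 h1
  obtain ⟨m, hm, h1⟩ := NumberField.Embeddings.pow_eq_one_of_norm_eq_one F ℂ hg (fun φ => by
    obtain ⟨τ, hτ⟩ := gal_extend F φ
    rw [← hτ]
    exact h τ)
  refine ⟨m, hm, ?_⟩
  have h2 := congrArg (fun x : F => (x : AlgebraicClosure k)) h1
  simpa [g] using h2

/-- a common exponent -/
theorem gal_uniform {A : Type} (R : ℕ → A → Prop) (hR : ∀ m n x, 0 < n → R m x → R (m * n) x)
    (s : Finset A) : ∃ M : ℕ, 0 < M ∧ ∀ x ∈ s, (∃ m, 0 < m ∧ R m x) → R M x := by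
  classical
  induction s using Finset.induction_on with
  | empty => exact ⟨1, one_pos, fun x hx => absurd hx (Finset.notMem_empty x)⟩
  | insert a s ha ih =>
    obtain ⟨M, hM, h⟩ := ih
    by_cases h1 : ∃ m, 0 < m ∧ R m a
    · obtain ⟨m, hm, h2⟩ := h1
      refine ⟨M * m, Nat.mul_pos hM hm, fun x hx h3 => ?_⟩
      rcases Finset.mem_insert.1 hx with rfl | hx
      · rw [mul_comm]
        exact hR m M x hM h2
      · exact hR M m x hm (h x hx h3)
    · refine ⟨M, hM, fun x hx h3 => ?_⟩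
      rcases Finset.mem_insert.1 hx with rfl | hx
      · exact absurd h3 h1
      · exact h x hx h3

theorem gal_fixed {k : Type} [Field k] [NumberField k] (v : AlgebraicClosure k)
    (h : ∀ g : AlgebraicClosure k ≃ₐ[k] AlgebraicClosure k, g v = v) :
    ∃ t : k, v = algebraMap k (AlgebraicClosure k) t := by
  have h1 := (InfiniteGalois.mem_bot_iff_fixed (k := k) (K := AlgebraicClosure k) v).2 h
  rw [IntermediateField.mem_bot] at h1
  obtain ⟨t, ht⟩ := h1
  exact ⟨t, ht.symm⟩

theorem gal_zpow_int {A : Type} [Field A] {x : A} (h1 : IsIntegral ℤ x) (h2 : IsIntegral ℤ x⁻¹)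
    (a : ℤ) : IsIntegral ℤ (x ^ a) := by
  rcases le_total 0 a with h | h
  · obtain ⟨n, rfl⟩ := Int.eq_ofNat_of_zero_le h
    rw [zpow_natCast]
    exact h1.pow n
  · obtain ⟨n, hn⟩ := Int.eq_ofNat_of_zero_le (neg_nonneg.2 h)
    have h3 : a = -(n : ℤ) := by omega
    rw [h3, zpow_neg, zpow_natCast, ← inv_pow]
    exact h2.pow n

theorem t_gal : S_GAL := by
  classical
  intro k _ _ P hP hroot hdep hex
  obtain ⟨α, hα, τ₀, hτ₀⟩ := hex
  have hα0 : α ≠ 0 := (hroot α hα).1
  -- the finite set of the roots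
  let s : Finset (AlgebraicClosure k) := (P.aroots (AlgebraicClosure k)).toFinset
  have hs : ∀ β, β ∈ s ↔ aeval β P = 0 := by
    intro β
    rw [Multiset.mem_toFinset, mem_aroots]
    exact ⟨fun h => h.2, fun h => ⟨hP, h⟩⟩
  have hpos : ∀ (β : (AlgebraicClosure k)), β ≠ 0 → ∀ τ : (AlgebraicClosure k) →+* ℂ, 0 < ‖τ β‖ := by
    intro β hβ τ
    exact norm_pos_iff.2 ((map_ne_zero τ).2 hβ)
  -- the relation in terms of logarithms
  have hlog : ∀ α β : (AlgebraicClosure k), aeval α P = 0 → aeval β P = 0 → ∃ a b : ℤ, (a ≠ 0 ∨ b ≠ 0) ∧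
      ∀ τ : (AlgebraicClosure k) →+* ℂ, (a : ℝ) * Real.log ‖τ α‖ + b * Real.log ‖τ β‖ = 0 := by
    intro α β hα hβ
    obtain ⟨a, b, h1, h2⟩ := hdep α β hα hβ
    refine ⟨a, b, h1, fun τ => ?_⟩
    have h3 := congrArg Real.log (h2 τ)
    have e1 := hpos α (hroot α hα).1 τ
    have e2 := hpos β (hroot β hβ).1 τ
    rw [Real.log_mul (zpow_pos e1 a).ne' (zpow_pos e2 b).ne', Real.log_zpow, Real.log_zpow,
      Real.log_one] at h3
    exact h3
  have hx0 : Real.log ‖τ₀ α‖ ≠ 0 := by
    intro h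
    have h1 := Real.eq_one_of_pos_of_log_eq_zero (hpos α hα0 τ₀) h
    exact hτ₀ h1
  -- the action of the Galois group
  have hgroot : ∀ (g : (AlgebraicClosure k) ≃ₐ[k] (AlgebraicClosure k)) (β : (AlgebraicClosure k)), aeval β P = 0 → aeval (g β) P = 0 := by
    intro g β hβ
    have h1 : aeval (g β) P = g (aeval β P) := (aeval_algHom_apply (g : (AlgebraicClosure k) →ₐ[k] (AlgebraicClosure k)) β P)
    rw [h1, hβ, map_zero]
  have hsign : ∀ g : (AlgebraicClosure k) ≃ₐ[k] (AlgebraicClosure k), (∀ τ : (AlgebraicClosure k) →+* ℂ, Real.log ‖τ (g α)‖ = Real.log ‖τ α‖) ∨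
      (∀ τ : (AlgebraicClosure k) →+* ℂ, Real.log ‖τ (g α)‖ = - Real.log ‖τ α‖) := by
    intro g
    obtain ⟨a, b, hab, h1⟩ := hlog α (g α) hα (hgroot g α hα)
    have hb : b ≠ 0 := by
      rintro rfl
      have ha : a ≠ 0 := by simpa using hab
      have h2 := h1 τ₀
      rw [Int.cast_zero, zero_mul, add_zero] at h2
      rcases mul_eq_zero.1 h2 with h3 | h3
      · exact ha (by exact_mod_cast h3)
      · exact hx0 h3
    obtain ⟨r, hr⟩ : ∃ r : ℝ, r = -(a : ℝ) / b := ⟨_, rfl⟩
    have hb' : (b : ℝ) ≠ 0 := by exact_mod_cast hb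
    have hrel : ∀ τ : (AlgebraicClosure k) →+* ℂ, Real.log ‖τ (g α)‖ = r * Real.log ‖τ α‖ := by
      intro τ
      have h2 := h1 τ
      rw [hr, div_mul_eq_mul_div, eq_div_iff hb']
      linarith
    -- iterate
    have hit : ∀ (j : ℕ) (τ : (AlgebraicClosure k) →+* ℂ), Real.log ‖τ ((g ^ j) α)‖ = r ^ j * Real.log ‖τ α‖ := by
      intro j
      induction j with
      | zero => intro τ; simp
      | succ j ih =>
        intro τ
        have h2 := ih (τ.comp (g : (AlgebraicClosure k) →+* (AlgebraicClosure k)))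
        have h3 := hrel τ
        have e1 : (τ.comp (g : (AlgebraicClosure k) →+* (AlgebraicClosure k))) ((g ^ j) α) = τ ((g ^ (j + 1)) α) := by
          rw [pow_succ']
          rfl
        have e2 : (τ.comp (g : (AlgebraicClosure k) →+* (AlgebraicClosure k))) α = τ (g α) := rfl
        rw [e1, e2, h3] at h2
        rw [h2, pow_succ]
        ring
    -- finiteness of the orbit
    have hfin : ∃ i j : ℕ, i < j ∧ (g ^ i) α = (g ^ j) α := by
      by_contra hcon
      push Not at hcon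
      have hinj : Function.Injective (fun i : ℕ => (⟨(g ^ i) α, (hs _).2 (hgroot (g ^ i) α hα)⟩ : s)) := by
        intro i j hij
        have h2 : (g ^ i) α = (g ^ j) α := congrArg Subtype.val hij
        rcases lt_trichotomy i j with h | h | h
        · exact absurd h2 (hcon i j h)
        · exact h
        · exact absurd h2.symm (hcon j i h)
      exact not_injective_infinite_finite _ hinj
    obtain ⟨i, j, hij, h2⟩ := hfin
    have h3 : r ^ i * Real.log ‖τ₀ α‖ = r ^ j * Real.log ‖τ₀ α‖ := by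
      rw [← hit i τ₀, ← hit j τ₀, h2]
    have h4 : r ^ i = r ^ j := mul_right_cancel₀ hx0 h3
    have hr0 : r ≠ 0 := by
      intro h0
      have h5 := hit 1 (τ₀.comp ((g⁻¹ : (AlgebraicClosure k) ≃ₐ[k] (AlgebraicClosure k)) : (AlgebraicClosure k) →+* (AlgebraicClosure k)))
      have e1 : (τ₀.comp ((g⁻¹ : (AlgebraicClosure k) ≃ₐ[k] (AlgebraicClosure k)) : (AlgebraicClosure k) →+* (AlgebraicClosure k))) ((g ^ 1) α) = τ₀ α := by
        rw [pow_one]
        show τ₀ ((g⁻¹ : (AlgebraicClosure k) ≃ₐ[k] (AlgebraicClosure k)) (g α)) = τ₀ α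
        congr 1
        exact g.symm_apply_apply α
      rw [e1, h0, pow_one, zero_mul] at h5
      exact hx0 h5
    have h5 : r ^ (j - i) = 1 := by
      have h6 : r ^ j = r ^ i * r ^ (j - i) := by
        rw [← pow_add]
        congr 1
        omega
      rw [h6] at h4
      have h7 : r ^ i ≠ 0 := pow_ne_zero _ hr0
      field_simp at h4
      exact h4.symm
    have h6 : |r| = 1 := by
      have h7 : |r| ^ (j - i) = 1 := by rw [← abs_pow, h5, abs_one]
      exact (pow_eq_one_iff_of_nonneg (abs_nonneg r) (by omega)).1 h7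
    rcases (abs_eq zero_le_one).1 h6 with h7 | h7
    · left
      intro τ
      rw [hrel τ, h7, one_mul]
    · right
      intro τ
      rw [hrel τ, h7]
      ring
  -- first exponent
  obtain ⟨M, hM, hM2⟩ := gal_uniform (fun m (β : (AlgebraicClosure k)) => β ^ m = α ^ m ∨ β ^ m = (α⁻¹) ^ m)
    (fun m n x _ h => by
      rcases h with h | h
      · left; rw [pow_mul, pow_mul, h]
      · right; rw [pow_mul, pow_mul, h]) s
  have hgM : ∀ g : (AlgebraicClosure k) ≃ₐ[k] (AlgebraicClosure k), (g α) ^ M = α ^ M ∨ (g α) ^ M = (α⁻¹) ^ M := by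
    intro g
    apply hM2 (g α) ((hs _).2 (hgroot g α hα))
    obtain ⟨_, hgi, hgi'⟩ := hroot (g α) (hgroot g α hα)
    obtain ⟨_, hai, hai'⟩ := hroot α hα
    rcases hsign g with h | h
    · obtain ⟨m, hm, h1⟩ := gal_kron (g α * α⁻¹) (hgi.mul hai') (fun τ => by
        have e1 := hpos (g α) (hroot (g α) (hgroot g α hα)).1 τ
        have e2 := hpos α hα0 τ
        rw [map_mul, map_inv₀, norm_mul, norm_inv,
          Real.log_injOn_pos (Set.mem_Ioi.2 e1) (Set.mem_Ioi.2 e2) (h τ)]
        exact mul_inv_cancel₀ e2.ne')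
      refine ⟨m, hm, Or.inl ?_⟩
      rw [mul_pow, inv_pow] at h1
      have h2 : α ^ m ≠ 0 := pow_ne_zero _ hα0
      field_simp at h1
      exact h1
    · obtain ⟨m, hm, h1⟩ := gal_kron (g α * α) (hgi.mul hai) (fun τ => by
        have e1 := hpos (g α) (hroot (g α) (hgroot g α hα)).1 τ
        have e2 := hpos α hα0 τ
        have e3 : Real.log ‖τ (g α)‖ = Real.log (‖τ α‖⁻¹) := by rw [h τ, Real.log_inv]
        rw [map_mul, norm_mul,
          Real.log_injOn_pos (Set.mem_Ioi.2 e1) (Set.mem_Ioi.2 (inv_pos.2 e2)) e3]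
        exact inv_mul_cancel₀ e2.ne')
      refine ⟨m, hm, Or.inr ?_⟩
      rw [mul_pow] at h1
      rw [inv_pow]
      exact eq_inv_of_mul_eq_one_left h1
  obtain ⟨u, hu⟩ : ∃ u, u = α ^ M := ⟨_, rfl⟩
  have hu0 : u ≠ 0 := by
    rw [hu]
    exact pow_ne_zero _ hα0
  have hgu : ∀ g : (AlgebraicClosure k) ≃ₐ[k] (AlgebraicClosure k), g (u + u⁻¹) = u + u⁻¹ := by
    intro g
    have h1 : g u = (g α) ^ M := by rw [hu, map_pow]
    rw [map_add, map_inv₀, h1]
    rcases hgM g with h | h
    · rw [h, ← hu]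
    · rw [h, inv_pow, ← hu, inv_inv, add_comm]
  obtain ⟨t, ht⟩ := gal_fixed (u + u⁻¹) hgu
  -- second exponent
  obtain ⟨N, hN, hN2⟩ := gal_uniform (fun m (β : (AlgebraicClosure k)) => ∃ c : ℤ, β ^ m = u ^ c)
    (fun m n x _ h => by
      obtain ⟨c, hc⟩ := h
      exact ⟨c * n, by rw [pow_mul, hc, zpow_mul, zpow_natCast]⟩) s
  refine ⟨u, t, N, hN, hu0, ht, ?_, ⟨τ₀, ?_⟩, ?_⟩
  · rw [hu]
    exact (hroot α hα).2.1.pow M
  · rw [hu, map_pow, norm_pow]
    intro h
    exact hτ₀ ((pow_eq_one_iff_of_nonneg (norm_nonneg _) hM.ne').1 h)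
  · intro β hβ
    apply hN2 β ((hs β).2 hβ)
    obtain ⟨a, b, hab, h1⟩ := hdep α β hα hβ
    obtain ⟨hβ0, hbi, hbi'⟩ := hroot β hβ
    obtain ⟨_, hai, hai'⟩ := hroot α hα
    have hb : b ≠ 0 := by
      rintro rfl
      have ha : a ≠ 0 := by simpa using hab
      have h2 := congrArg Real.log (h1 τ₀)
      rw [zpow_zero, mul_one, Real.log_zpow, Real.log_one] at h2
      rcases mul_eq_zero.1 h2 with h3 | h3
      · exact ha (by exact_mod_cast h3)
      · exact hx0 h3
    obtain ⟨m, hm, h2⟩ := gal_kron (α ^ a * β ^ b)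
      ((gal_zpow_int hai hai' a).mul (gal_zpow_int hbi hbi' b)) (fun τ => by
        rw [map_mul, map_zpow₀, map_zpow₀, norm_mul, norm_zpow, norm_zpow]
        exact h1 τ)
    -- β ^ (b m M) = u ^ (- a m)
    have h3 : β ^ (b * m * M) = u ^ (-(a * m)) := by
      have h4 : (α ^ a * β ^ b) ^ (m * M) = 1 := by rw [pow_mul, h2, one_pow]
      rw [mul_pow, ← zpow_natCast, ← zpow_mul, ← zpow_natCast, ← zpow_mul] at h4
      have h5 : α ^ (a * ((m * M : ℕ) : ℤ)) = u ^ (a * m) := by
        rw [hu, ← zpow_natCast, ← zpow_mul]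
        congr 1
        push_cast
        ring
      rw [h5] at h4
      have h6 : β ^ (b * ((m * M : ℕ) : ℤ)) = β ^ (b * m * M) := by
        congr 1
        push_cast
        ring
      rw [h6] at h4
      rw [zpow_neg]
      exact eq_inv_of_mul_eq_one_right h4
    rcases lt_or_gt_of_ne hb with hneg | hbpos
    · refine ⟨b.natAbs * m * M, by positivity, a * m, ?_⟩
      have h4 : ((b.natAbs * m * M : ℕ) : ℤ) = -(b * m * M) := by
        push_cast
        rw [abs_of_neg hneg]
        ring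
      rw [← zpow_natCast, h4, zpow_neg, h3, zpow_neg, inv_inv]
    · refine ⟨b.natAbs * m * M, by positivity, -(a * m), ?_⟩
      have h4 : ((b.natAbs * m * M : ℕ) : ℤ) = b * m * M := by
        push_cast
        rw [abs_of_pos hbpos]
      rw [← zpow_natCast, h4, h3]

end Pool.Agent.NH73.RO
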