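import Pool.Agent.NH73.RO.Kron
import Pool.Agent.NH73.RO.Gal

/-!
# Elements with small eigenvalues: their eigenvalues are powers of one unit
-/

set_option autoImplicit false

open NumberField Module Polynomial Pool.Agent.H225R3.Marg

namespace Pool.Agent.NH73.RO

open Pool.Agent.NH69.MI Pool.Agent.NH69.MI.Mat

/-- `u` is a unit (in the algebraic closure of the number field `k`) with `u + u⁻¹` in `k`. -/
def IsRec (k : Type) [Field k] (u : AlgebraicClosure k) : Prop :=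
  u ≠ 0 ∧ IsIntegral ℤ u ∧ IsIntegral ℤ u⁻¹ ∧ ∃ t : k, u + u⁻¹ = algebraMap k (AlgebraicClosure k) t

/-- All eigenvalues of some power `A ^ N`, `N ≥ 1`, are powers of `u`, with integral exponents. -/
def PowersOf {k : Type} [Field k] [NumberField k] {n : ℕ} (A : Matrix (Fin n) (Fin n) (𝓞 k))
    (u : AlgebraicClosure k) : Prop :=
  ∃ N : ℕ, 0 < N ∧ ∀ β : AlgebraicClosure k,
    aeval β (A.charpoly.map (algebraMap (𝓞 k) k)) = 0 → ∃ c : ℤ, β ^ N = u ^ c

/-- The matrix `A` over the ring of integers of `k` has rank one: there is a unit `u` with `u + u⁻¹` in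
`k` such that all eigenvalues of some power of `A` are powers of `u`. (The identity component of the
Zariski closure of the group generated by the semisimple part of `A` is then a torus of dimension at
most one over `k`.) -/
def RankOne {k : Type} [Field k] [NumberField k] {n : ℕ} (A : Matrix (Fin n) (Fin n) (𝓞 k)) : Prop :=
  ∃ u : AlgebraicClosure k, IsRec k u ∧ PowersOf A u

lemma isRec_one (k : Type) [Field k] : IsRec k 1 :=
  ⟨one_ne_zero, isIntegral_one, by rw [inv_one]; exact isIntegral_one, 2, by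
    rw [inv_one, map_ofNat]
    norm_num⟩

/-- **One unit for each field.** -/
theorem growth4 (ε : ℝ) (hε : 0 < ε) (hε1 : ε < 1 / 2) : ∃ κ : ℝ, 0 < κ ∧ ∀ n : ℕ, ∃ D₀ : ℕ,
    ∀ (k : Type) [Field k] [NumberField k], D₀ ≤ finrank ℚ k →
      ∃ (u : AlgebraicClosure k) (X : Finset (k →+* ℂ)), IsRec k u ∧ X.Nonempty ∧
        ∀ (S : Finset (k →+* ℂ)) (A : Matrix (Fin n) (Fin n) (𝓞 k)), Adm k (1 / 2 - ε) S A →
          Large k κ S A ∨ (X ⊆ S ∧ PowersOf A u) := by
  classical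
  obtain ⟨κ, hκ, h⟩ := exc ε hε hε1
  refine ⟨κ, hκ, fun n => ?_⟩
  obtain ⟨D₀, hD₀⟩ := h n
  refine ⟨D₀, ?_⟩
  intro k _ _ hD
  obtain ⟨X, hX, hXS, hdep⟩ := hD₀ k hD
  by_cases hex : ∃ (S₀ : Finset (k →+* ℂ)) (A₀ : Matrix (Fin n) (Fin n) (𝓞 k)),
      Adm k (1 / 2 - ε) S₀ A₀ ∧ ¬ Large k κ S₀ A₀
  · obtain ⟨S₀, A₀, hA₀, hl₀⟩ := hex
    have hPm : (A₀.charpoly.map (algebraMap (𝓞 k) k)).Monic := (Matrix.charpoly_monic A₀).map _
    obtain ⟨α, hα, τ, hτ⟩ := exists_off hA₀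
    obtain ⟨hα0, hα1, hα2⟩ := root_unit A₀ hA₀.unit α hα
    obtain ⟨u, t, N, hN, hu0, hut, hui, -, hpow⟩ := t_gal k (A₀.charpoly.map (algebraMap (𝓞 k) k))
      hPm.ne_zero (root_unit A₀ hA₀.unit) (hdep S₀ S₀ A₀ A₀ hA₀ hA₀ hl₀ hl₀) ⟨α, hα, τ, hτ⟩
    obtain ⟨c, hc⟩ := hpow α hα
    have hc0 : c ≠ 0 := by
      rintro rfl
      rw [zpow_zero] at hc
      have h3 : ‖τ α‖ ^ N = 1 := by
        rw [← norm_pow, ← map_pow, hc, map_one, norm_one]
      exact hτ ((pow_eq_one_iff_of_nonneg (norm_nonneg _) hN.ne').1 h3)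
    have hui' : IsIntegral ℤ u⁻¹ := by
      obtain ⟨m, rfl | rfl⟩ := c.eq_nat_or_neg
      · have hm : 0 < m := by
          rcases Nat.eq_zero_or_pos m with h | h
          · exact absurd (by rw [h]; rfl) hc0
          · exact h
        apply IsIntegral.of_pow hm
        rw [inv_pow, ← zpow_natCast, ← hc, ← inv_pow]
        exact hα2.pow N
      · have hm : 0 < m := by
          rcases Nat.eq_zero_or_pos m with h | h
          · exact absurd (by rw [h]; rfl) hc0
          · exact h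
        apply IsIntegral.of_pow hm
        rw [inv_pow, ← zpow_natCast, ← zpow_neg, ← hc]
        exact hα1.pow N
    refine ⟨u, X, ⟨hu0, hui, hui', t, hut⟩, hX, ?_⟩
    intro S A hA
    by_cases hl : Large k κ S A
    · exact Or.inl hl
    refine Or.inr ⟨(hXS S A hA).resolve_left hl, ?_⟩
    -- a common exponent for the roots
    have hQm : (A.charpoly.map (algebraMap (𝓞 k) k)).Monic := (Matrix.charpoly_monic A).map _
    obtain ⟨N', hN', hN2⟩ := gal_uniform (fun m (β : AlgebraicClosure k) => ∃ c : ℤ, β ^ m = u ^ c)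
      (fun m n x _ h => by
        obtain ⟨c, hc⟩ := h
        exact ⟨c * n, by rw [pow_mul, hc, zpow_mul, zpow_natCast]⟩)
      ((A.charpoly.map (algebraMap (𝓞 k) k)).aroots (AlgebraicClosure k)).toFinset
    refine ⟨N', hN', fun β hβ => ?_⟩
    apply hN2 β
    · rw [Multiset.mem_toFinset, mem_aroots]
      exact ⟨hQm.ne_zero, hβ⟩
    obtain ⟨hβ0, hβ1, hβ2⟩ := root_unit A hA.unit β hβ
    obtain ⟨a, b, hab, h1⟩ := hdep S₀ S A₀ A hA₀ hA hl₀ hl α β hα hβ
    have hb : b ≠ 0 := dep_ne hab h1 ⟨τ, hτ⟩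
    obtain ⟨m, hm, h2⟩ := kron (α ^ a * β ^ b) ((int_zpow hα1 hα2 a).mul (int_zpow hβ1 hβ2 b))
      (fun τ => by
        rw [map_mul, map_zpow₀, map_zpow₀, norm_mul, norm_zpow, norm_zpow]
        exact h1 τ)
    -- `β ^ (b m N) = u ^ (- a m c)`
    have h3 : β ^ (b * (m * N)) = u ^ (-(c * (a * m))) := by
      have h4 : (α ^ a * β ^ b) ^ (m * N) = 1 := by rw [pow_mul, h2, one_pow]
      rw [mul_pow, ← zpow_natCast, ← zpow_mul, ← zpow_natCast, ← zpow_mul] at h4
      have h5 : α ^ (a * ((m * N : ℕ) : ℤ)) = u ^ (c * (a * m)) := by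
        rw [zpow_mul u, ← hc, ← zpow_natCast, ← zpow_mul]
        congr 1
        push_cast
        ring
      rw [h5] at h4
      have h6 : β ^ (b * ((m * N : ℕ) : ℤ)) = β ^ (b * (m * N)) := by
        rw [Nat.cast_mul]
      rw [h6] at h4
      rw [zpow_neg]
      exact eq_inv_of_mul_eq_one_right h4
    refine ⟨b.natAbs * (m * N), Nat.mul_pos (Int.natAbs_pos.2 hb) (Nat.mul_pos hm hN), ?_⟩
    rcases lt_or_gt_of_ne hb with hneg | hbpos
    · refine ⟨c * (a * m), ?_⟩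
      have h4 : ((b.natAbs * (m * N) : ℕ) : ℤ) = -(b * (m * N)) := by
        push_cast
        rw [abs_of_neg hneg]
        ring
      rw [← zpow_natCast, h4, zpow_neg, h3, zpow_neg, inv_inv]
    · refine ⟨-(c * (a * m)), ?_⟩
      have h4 : ((b.natAbs * (m * N) : ℕ) : ℤ) = b * (m * N) := by
        push_cast
        rw [abs_of_pos hbpos]
      rw [← zpow_natCast, h4, h3]
  · push Not at hex
    exact ⟨1, X, isRec_one k, hX, fun S A hA => Or.inl (hex S A hA)⟩

/-- from the growth to a gap -/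
lemma two_le_of_log {d : ℕ} (hd : 0 < d) {κ : ℝ} (hκ : 0 < κ) {l : ℂ}
    (h : (d : ℝ) ^ κ < Real.log ‖l‖) {E : ℕ} (hE : 0 < E) : 2 ≤ ‖l‖ ^ E := by
  have hd1 : (1 : ℝ) ≤ d := by exact_mod_cast hd
  have h2 : 1 ≤ (d : ℝ) ^ κ := Real.one_le_rpow hd1 hκ.le
  have h3 : 1 < Real.log ‖l‖ := by linarith
  have hpos : 0 < ‖l‖ := by
    by_contra hcon
    have : ‖l‖ = 0 := le_antisymm (not_lt.1 hcon) (norm_nonneg _)
    rw [this, Real.log_zero] at h3
    linarith
  rw [Real.lt_log_iff_exp_lt hpos] at h3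
  have h4 : 2 ≤ ‖l‖ := by
    have := Real.exp_one_gt_d9
    linarith
  exact h4.trans (le_self_pow₀ (by linarith) hE.ne')

end Pool.Agent.NH73.RO
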