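import Pool.Agent.NH73.RO.Mat4
import Pool.Agent.NH69.MI.Fin

/-!
# The theorem of Kronecker in the algebraic closure, and the exceptional embeddings
-/

set_option autoImplicit false

open NumberField Module Polynomial Pool.Agent.H225R3.Marg

namespace Pool.Agent.NH73.RO

open Pool.Agent.NH69.MI Pool.Agent.NH69.MI.Mat

/-- the theorem of Kronecker -/
theorem kron {k : Type} [Field k] [NumberField k] (x : AlgebraicClosure k) (hx : IsIntegral ℤ x)
    (h : ∀ τ : AlgebraicClosure k →+* ℂ, ‖τ x‖ = 1) : ∃ m : ℕ, 0 < m ∧ x ^ m = 1 := by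
  have alg : Algebra.IsAlgebraic ℚ (AlgebraicClosure k) := Algebra.IsAlgebraic.trans ℚ k _
  obtain ⟨K, hK⟩ : ∃ K : IntermediateField ℚ (AlgebraicClosure k), K = IntermediateField.adjoin ℚ {x} :=
    ⟨_, rfl⟩
  have hxK : x ∈ K := by
    rw [hK]
    exact IntermediateField.mem_adjoin_simple_self ℚ x
  have fd : FiniteDimensional ℚ K := by
    rw [hK]
    exact IntermediateField.adjoin.finiteDimensional (Algebra.IsIntegral.isIntegral x)
  have nf : NumberField K := ⟨⟩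
  have algK : Algebra.IsAlgebraic K (AlgebraicClosure k) := Algebra.IsAlgebraic.tower_top (K := ℚ) K
  have hxi : IsIntegral ℤ (⟨x, hxK⟩ : K) :=
    (isIntegral_algHom_iff (K.val.restrictScalars ℤ) (RingHom.injective _)).1 hx
  obtain ⟨m, hm, hm1⟩ := NumberField.Embeddings.pow_eq_one_of_norm_eq_one K ℂ hxi (by
    intro φ
    let a1 : Algebra K ℂ := φ.toAlgebra
    let τ : AlgebraicClosure k →ₐ[K] ℂ := IsAlgClosed.lift
    have h1 : (τ : AlgebraicClosure k →+* ℂ) x = φ ⟨x, hxK⟩ := τ.commutes ⟨x, hxK⟩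
    rw [← h1]
    exact h _)
  exact ⟨m, hm, congrArg Subtype.val hm1⟩

lemma int_zpow {Ω : Type} [Field Ω] {x : Ω} (h1 : IsIntegral ℤ x) (h2 : IsIntegral ℤ x⁻¹) (a : ℤ) :
    IsIntegral ℤ (x ^ a) := by
  obtain ⟨m, rfl | rfl⟩ := a.eq_nat_or_neg
  · rw [zpow_natCast]
    exact h1.pow m
  · rw [zpow_neg, zpow_natCast, ← inv_pow]
    exact h2.pow m

/-- The matrices `A` with few embeddings off the circle. -/
structure Adm (k : Type) [Field k] [NumberField k] (δ : ℝ) {n : ℕ} (S : Finset (k →+* ℂ))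
    (A : Matrix (Fin n) (Fin n) (𝓞 k)) : Prop where
  unit : IsUnit A
  circ : ∀ σ : k →+* ℂ, σ ∉ S → ∀ l : ℂ, ((emb σ).mapMatrix A).charpoly.IsRoot l → ‖l‖ = 1
  small : (S.card : ℝ) ≤ (finrank ℚ k : ℝ) ^ δ
  nil : ∀ N : ℕ, 0 < N → ¬ IsNilpotent (A ^ N - 1)

/-- `A` has an eigenvalue `l` with `log |l| > d ^ κ`. -/
def Large (k : Type) [Field k] [NumberField k] (κ : ℝ) {n : ℕ} (S : Finset (k →+* ℂ))
    (A : Matrix (Fin n) (Fin n) (𝓞 k)) : Prop :=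
  ∃ σ ∈ S, ∃ l : ℂ, ((emb σ).mapMatrix A).charpoly.IsRoot l ∧
    (finrank ℚ k : ℝ) ^ κ < Real.log ‖l‖

/-- the roots of the characteristic polynomial are units -/
lemma root_unit {k : Type} [Field k] [NumberField k] {n : ℕ} (A : Matrix (Fin n) (Fin n) (𝓞 k))
    (hA : IsUnit A) (β : AlgebraicClosure k)
    (hβ : aeval β (A.charpoly.map (algebraMap (𝓞 k) k)) = 0) :
    β ≠ 0 ∧ IsIntegral ℤ β ∧ IsIntegral ℤ β⁻¹ := by
  apply root_int A hA ((algebraMap k (AlgebraicClosure k)).comp (algebraMap (𝓞 k) k))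
  rw [← Polynomial.eval₂_map]
  exact hβ

/-- there is an eigenvalue off the circle -/
lemma exists_off {k : Type} [Field k] [NumberField k] {δ : ℝ} {n : ℕ} {S : Finset (k →+* ℂ)}
    {A : Matrix (Fin n) (Fin n) (𝓞 k)} (h : Adm k δ S A) :
    ∃ α : AlgebraicClosure k, aeval α (A.charpoly.map (algebraMap (𝓞 k) k)) = 0 ∧
      ∃ τ : AlgebraicClosure k →+* ℂ, ‖τ α‖ ≠ 1 := by
  obtain ⟨σ, l, h1, h2⟩ := Pool.Agent.R826.Frob.exists_big S A h.unit
    (fun σ hσ l hl => (h.circ σ hσ l hl).le) h.nil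
  have h1' : ((A.charpoly.map (algebraMap (𝓞 k) k)).map σ).IsRoot l := by
    have h3 := charpoly_emb A (RingHom.id k) σ
    rw [RingHom.comp_id, RingHom.id_comp] at h3
    rw [← h3]
    exact h1
  obtain ⟨τ, α, f1, f2, f3⟩ := lift_root _ ((Matrix.charpoly_monic A).map _).ne_zero σ l h1'
  refine ⟨α, f2, τ, ?_⟩
  rw [f3]
  exact h2.ne'

/-- an eigenvalue off the circle belongs to an embedding in `S` -/
lemma mem_of_off {k : Type} [Field k] [NumberField k] {δ : ℝ} {n : ℕ} {S : Finset (k →+* ℂ)}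
    {A : Matrix (Fin n) (Fin n) (𝓞 k)} (h : Adm k δ S A) (β : AlgebraicClosure k)
    (hβ : aeval β (A.charpoly.map (algebraMap (𝓞 k) k)) = 0) (τ : AlgebraicClosure k →+* ℂ)
    (hτ : ‖τ β‖ ≠ 1) : τ.comp (algebraMap k (AlgebraicClosure k)) ∈ S := by
  by_contra hcon
  apply hτ
  refine h.circ _ hcon _ ?_
  rw [charpoly_emb, Polynomial.IsRoot.def, Polynomial.eval_map, ← Polynomial.map_map,
    Polynomial.eval₂_map, ← Polynomial.hom_eval₂]
  have h1 : eval₂ (algebraMap k (AlgebraicClosure k)) β (A.charpoly.map (algebraMap (𝓞 k) k)) = 0 :=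
    hβ
  rw [h1, map_zero]

/-- the two relations between the absolute values -/
lemma dep_ne {k : Type} [Field k] [NumberField k] {α β : AlgebraicClosure k} {a b : ℤ}
    (hab : a ≠ 0 ∨ b ≠ 0) (h : ∀ τ : AlgebraicClosure k →+* ℂ, ‖τ α‖ ^ a * ‖τ β‖ ^ b = 1)
    (hα : ∃ τ : AlgebraicClosure k →+* ℂ, ‖τ α‖ ≠ 1) : b ≠ 0 := by
  rintro rfl
  obtain ⟨τ, hτ⟩ := hα
  have h1 := h τ
  rw [zpow_zero, mul_one, zpow_eq_one_iff_right₀ (norm_nonneg _) hτ] at h1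
  rcases hab with h2 | h2
  · exact h2 h1
  · exact h2 rfl

/-- **The exceptional embeddings.** For each field `k` of large degree there is a nonempty set `X` of
embeddings such that the matrices with small eigenvalues have eigenvalues off the circle at all
embeddings in `X`; and an eigenvalue of one of them depends on those of the others. -/
theorem exc (ε : ℝ) (hε : 0 < ε) (hε1 : ε < 1 / 2) : ∃ κ : ℝ, 0 < κ ∧ ∀ n : ℕ, ∃ D₀ : ℕ,
    ∀ (k : Type) [Field k] [NumberField k], D₀ ≤ finrank ℚ k →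
      ∃ (X : Finset (k →+* ℂ)), X.Nonempty ∧
        (∀ (S : Finset (k →+* ℂ)) (A : Matrix (Fin n) (Fin n) (𝓞 k)), Adm k (1 / 2 - ε) S A →
          Large k κ S A ∨ X ⊆ S) ∧
        ∀ (S₀ S : Finset (k →+* ℂ)) (A₀ A : Matrix (Fin n) (Fin n) (𝓞 k)),
          Adm k (1 / 2 - ε) S₀ A₀ → Adm k (1 / 2 - ε) S A → ¬ Large k κ S₀ A₀ → ¬ Large k κ S A →
          ∀ α β : AlgebraicClosure k, aeval α (A₀.charpoly.map (algebraMap (𝓞 k) k)) = 0 →
          aeval β (A.charpoly.map (algebraMap (𝓞 k) k)) = 0 →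
          ∃ a b : ℤ, (a ≠ 0 ∨ b ≠ 0) ∧
            ∀ τ : AlgebraicClosure k →+* ℂ, ‖τ α‖ ^ a * ‖τ β‖ ^ b = 1 := by
  classical
  obtain ⟨κ, hκ, h⟩ := mat4 ε hε hε1
  refine ⟨κ, hκ, fun n => ?_⟩
  obtain ⟨D₀, hD₀⟩ := h n
  refine ⟨D₀, ?_⟩
  intro k _ _ hD
  have hdep : ∀ (S₀ S : Finset (k →+* ℂ)) (A₀ A : Matrix (Fin n) (Fin n) (𝓞 k)),
      Adm k (1 / 2 - ε) S₀ A₀ → Adm k (1 / 2 - ε) S A → ¬ Large k κ S₀ A₀ → ¬ Large k κ S A →
      ∀ α β : AlgebraicClosure k, aeval α (A₀.charpoly.map (algebraMap (𝓞 k) k)) = 0 →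
      aeval β (A.charpoly.map (algebraMap (𝓞 k) k)) = 0 →
      ∃ a b : ℤ, (a ≠ 0 ∨ b ≠ 0) ∧
        ∀ τ : AlgebraicClosure k →+* ℂ, ‖τ α‖ ^ a * ‖τ β‖ ^ b = 1 := by
    intro S₀ S A₀ A hA₀ hA hl₀ hl
    unfold Large at hl₀ hl
    push Not at hl₀ hl
    exact hD₀ k S₀ S A₀ A hD hA₀.unit hA.unit hA₀.circ hA.circ hA₀.small hA.small hl₀ hl
  by_cases hex : ∃ (S₀ : Finset (k →+* ℂ)) (A₀ : Matrix (Fin n) (Fin n) (𝓞 k)),
      Adm k (1 / 2 - ε) S₀ A₀ ∧ ¬ Large k κ S₀ A₀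
  · obtain ⟨S₀, A₀, hA₀, hl₀⟩ := hex
    obtain ⟨α, hα, τ₀, hτ₀⟩ := exists_off hA₀
    refine ⟨Finset.univ.filter fun σ => ∃ τ : AlgebraicClosure k →+* ℂ,
      τ.comp (algebraMap k (AlgebraicClosure k)) = σ ∧ ‖τ α‖ ≠ 1, ?_, ?_, hdep⟩
    · exact ⟨τ₀.comp (algebraMap k (AlgebraicClosure k)), by
        rw [Finset.mem_filter]
        exact ⟨Finset.mem_univ _, τ₀, rfl, hτ₀⟩⟩
    · intro S A hA
      by_cases hl : Large k κ S A
      · exact Or.inl hl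
      · right
        intro σ hσ
        rw [Finset.mem_filter] at hσ
        obtain ⟨-, τ, rfl, hτ⟩ := hσ
        obtain ⟨β, hβ, hβoff⟩ := exists_off hA
        obtain ⟨a, b, hab, h1⟩ := hdep S₀ S A₀ A hA₀ hA hl₀ hl α β hα hβ
        have ha : a ≠ 0 := dep_ne hab.symm (fun τ => by rw [mul_comm]; exact h1 τ) hβoff
        refine mem_of_off hA β hβ τ fun h2 => ?_
        have h3 := h1 τ
        rw [h2, one_zpow, mul_one, zpow_eq_one_iff_right₀ (norm_nonneg _) hτ] at h3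
        exact ha h3
  · push Not at hex
    refine ⟨Finset.univ, ?_, fun S A hA => Or.inl (hex S A hA), hdep⟩
    rw [Finset.univ_nonempty_iff]
    exact ⟨(IsAlgClosed.lift : k →ₐ[ℚ] ℂ).toRingHom⟩

end Pool.Agent.NH73.RO
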