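import Pool.Agent.NH69.MI.Mat2
import Pool.Agent.NH73.RO.C9

/-!
# From matrices to multiplicatively independent pairs of units

Adapted from `Pool.Agent.NH69.MI.Mat2` (helper69).
-/

set_option autoImplicit false

open NumberField Module Pool.Agent.H225R3.Marg

namespace Pool.Agent.NH73.RO

open Pool.Agent.NH69.MI Pool.Agent.NH69.MI.Mat Polynomial IntermediateField

theorem pair3_mono {K : Type} [Field K] [NumberField K] {S : Finset (K →+* ℂ)} {η η' : ℝ}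
    {x y : (𝓞 K)ˣ} (h : Pair3 K S η x y) (hη : η ≤ η') : Pair3 K S η' x y :=
  ⟨h.circ1, h.circ2, fun ρ => (h.bd1 ρ).trans hη, fun ρ => (h.bd2 ρ).trans hη, h.ind⟩

/-- the field generated by the two units, with the exact count of the embeddings -/
theorem pair_field3 {E : Type} [Field E] [NumberField E] (α β : E) (hα : α ≠ 0) (hβ : β ≠ 0)
    (a1 : IsIntegral ℤ α) (a2 : IsIntegral ℤ α⁻¹) (b1 : IsIntegral ℤ β) (b2 : IsIntegral ℤ β⁻¹)
    (T : Finset (E →+* ℂ)) (hT : ∀ τ, τ ∉ T → ‖τ α‖ = 1 ∧ ‖τ β‖ = 1)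
    (η : ℝ) (c1 : ∀ a b : ℤ, (a ≠ 0 ∨ b ≠ 0) → ∃ τ : E →+* ℂ, ‖τ α‖ ^ a * ‖τ β‖ ^ b ≠ 1)
    (d1 : ∀ τ : E →+* ℂ, Real.log ‖τ α‖ ≤ η) (d2 : ∀ τ : E →+* ℂ, Real.log ‖τ β‖ ≤ η) :
    ∃ (F : Type) (_ : Field F) (_ : NumberField F) (S' : Finset (F →+* ℂ)) (α' β' : (𝓞 F)ˣ),
      0 < S'.card ∧ finrank ℚ F ≤ finrank ℚ E ∧
      S'.card * finrank ℚ E ≤ T.card * finrank ℚ F ∧
      Algebra.adjoin ℚ {((α' : 𝓞 F) : F), ((β' : 𝓞 F) : F)} = ⊤ ∧ Pair3 F S' η α' β' := by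
  classical
  obtain ⟨F, hF⟩ : ∃ F : IntermediateField ℚ E, F = IntermediateField.adjoin ℚ {α, β} :=
    ⟨_, rfl⟩
  have hαF : α ∈ F := by
    rw [hF]
    exact IntermediateField.subset_adjoin _ _ (Set.mem_insert _ _)
  have hβF : β ∈ F := by
    rw [hF]
    exact IntermediateField.subset_adjoin _ _ (Set.mem_insert_of_mem _ (Set.mem_singleton _))
  have int : ∀ x : F, IsIntegral ℤ (x : E) → IsIntegral ℤ x := by
    intro x hx
    exact (isIntegral_algHom_iff (F.val.restrictScalars ℤ) (RingHom.injective _)).1 hx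
  obtain ⟨α', hα'⟩ := exists_unit (⟨α, hαF⟩ : F) (fun h => hα (congrArg Subtype.val h))
    (int _ a1) (int _ (by rw [IntermediateField.coe_inv]; exact a2))
  obtain ⟨β', hβ'⟩ := exists_unit (⟨β, hβF⟩ : F) (fun h => hβ (congrArg Subtype.val h))
    (int _ b1) (int _ (by rw [IntermediateField.coe_inv]; exact b2))
  let j : F →+* E := F.val.toRingHom
  have hjα : j ((α' : 𝓞 F) : F) = α := by rw [hα']; rfl
  have hjβ : j ((β' : 𝓞 F) : F) = β := by rw [hβ']; rfl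
  obtain ⟨S', hS'⟩ : ∃ S' : Finset (F →+* ℂ), ∀ σ, σ ∈ S' ↔
      (‖σ ((α' : 𝓞 F) : F)‖ ≠ 1 ∨ ‖σ ((β' : 𝓞 F) : F)‖ ≠ 1) :=
    ⟨Finset.univ.filter fun σ => ‖σ ((α' : 𝓞 F) : F)‖ ≠ 1 ∨ ‖σ ((β' : 𝓞 F) : F)‖ ≠ 1,
      fun σ => by rw [Finset.mem_filter]; exact ⟨fun h => h.2, fun h => ⟨Finset.mem_univ _, h⟩⟩⟩
  obtain ⟨T', hT'⟩ : ∃ T' : Finset (E →+* ℂ), ∀ τ, τ ∈ T' ↔ τ.comp j ∈ S' :=
    ⟨Finset.univ.filter fun τ => τ.comp j ∈ S',
      fun σ => by rw [Finset.mem_filter]; exact ⟨fun h => h.2, fun h => ⟨Finset.mem_univ _, h⟩⟩⟩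
  have hcount := ext_card_set j S' T' hT'
  have hTX : T'.card ≤ T.card := by
    refine Finset.card_le_card ?_
    intro τ hτ
    rw [hT', hS'] at hτ
    by_contra hcon
    have h1 := hT τ hcon
    rcases hτ with h | h
    · rw [RingHom.comp_apply, hjα] at h
      exact h h1.1
    · rw [RingHom.comp_apply, hjβ] at h
      exact h h1.2
  have hSpos : 0 < S'.card := by
    obtain ⟨τ, hτ⟩ := c1 1 0 (Or.inl one_ne_zero)
    apply Finset.card_pos.2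
    refine ⟨τ.comp j, (hS' _).2 (Or.inl ?_)⟩
    rw [RingHom.comp_apply, hjα]
    intro h
    apply hτ
    rw [h]
    simp
  have hle : finrank ℚ F ≤ finrank ℚ E := by
    exact Submodule.finrank_le F.toSubmodule
  have hS'1 : ∀ ρ, ρ ∉ S' → ‖ρ ((α' : 𝓞 F) : F)‖ = 1 ∧ ‖ρ ((β' : 𝓞 F) : F)‖ = 1 := by
    intro ρ hρ
    rw [hS'] at hρ
    push Not at hρ
    exact hρ
  have hlogα : ∀ ρ : F →+* ℂ, Real.log ‖ρ ((α' : 𝓞 F) : F)‖ ≤ η := by
    intro ρ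
    obtain ⟨τ, rfl⟩ := ext_exists j ρ
    rw [RingHom.comp_apply, hjα]
    exact d1 τ
  have hlogβ : ∀ ρ : F →+* ℂ, Real.log ‖ρ ((β' : 𝓞 F) : F)‖ ≤ η := by
    intro ρ
    obtain ⟨τ, rfl⟩ := ext_exists j ρ
    rw [RingHom.comp_apply, hjβ]
    exact d2 τ
  refine ⟨F, inferInstance, inferInstance, S', α', β', hSpos, hle, ?_, ?_, ?_⟩
  · rw [← hcount]
    exact Nat.mul_le_mul_right _ hTX
  · have h1 : (Algebra.adjoin ℚ {α, β}) = F.toSubalgebra := by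
      rw [hF]
      symm
      apply IntermediateField.adjoin_toSubalgebra_of_isAlgebraic
      intro x _
      exact Algebra.IsAlgebraic.isAlgebraic x
    refine adjoin_top j _ _ fun x => ?_
    rw [hjα, hjβ, h1]
    exact x.2
  · refine ⟨fun ρ h => (hS'1 ρ h).1, fun ρ h => (hS'1 ρ h).2, hlogα, hlogβ, fun a b hab => ?_⟩
    obtain ⟨τ, t1⟩ := c1 a b hab
    refine ⟨τ.comp j, ?_⟩
    rw [RingHom.comp_apply, RingHom.comp_apply, hjα, hjβ]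
    exact t1

/-- Let `A₁`, `A₂` be invertible matrices over the ring of integers of `k`, with eigenvalues on the unit
circle under all embeddings outside `S₁`, `S₂`, and small under the others. Then any eigenvalues of
`A₁` and `A₂` are multiplicatively dependent, up to a number all of whose conjugates are on the unit
circle. -/
theorem mat4 (ε : ℝ) (hε : 0 < ε) (hε1 : ε < 1 / 2) : ∃ κ : ℝ, 0 < κ ∧ ∀ n : ℕ, ∃ D₀ : ℕ,
    ∀ (k : Type) [Field k] [NumberField k] (S₁ S₂ : Finset (k →+* ℂ))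
      (A₁ A₂ : Matrix (Fin n) (Fin n) (𝓞 k)), D₀ ≤ finrank ℚ k → IsUnit A₁ → IsUnit A₂ →
    (∀ σ : k →+* ℂ, σ ∉ S₁ → ∀ l : ℂ, ((emb σ).mapMatrix A₁).charpoly.IsRoot l → ‖l‖ = 1) →
    (∀ σ : k →+* ℂ, σ ∉ S₂ → ∀ l : ℂ, ((emb σ).mapMatrix A₂).charpoly.IsRoot l → ‖l‖ = 1) →
    (S₁.card : ℝ) ≤ (finrank ℚ k : ℝ) ^ (1 / 2 - ε : ℝ) →
    (S₂.card : ℝ) ≤ (finrank ℚ k : ℝ) ^ (1 / 2 - ε : ℝ) →
    (∀ σ ∈ S₁, ∀ l : ℂ, ((emb σ).mapMatrix A₁).charpoly.IsRoot l →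
      Real.log ‖l‖ ≤ (finrank ℚ k : ℝ) ^ κ) →
    (∀ σ ∈ S₂, ∀ l : ℂ, ((emb σ).mapMatrix A₂).charpoly.IsRoot l →
      Real.log ‖l‖ ≤ (finrank ℚ k : ℝ) ^ κ) →
    ∀ α β : AlgebraicClosure k, aeval α (A₁.charpoly.map (algebraMap (𝓞 k) k)) = 0 →
      aeval β (A₂.charpoly.map (algebraMap (𝓞 k) k)) = 0 →
      ∃ a b : ℤ, (a ≠ 0 ∨ b ≠ 0) ∧
        ∀ τ : AlgebraicClosure k →+* ℂ, ‖τ α‖ ^ a * ‖τ β‖ ^ b = 1 := by
  classical
  obtain ⟨D', hD'⟩ := core3 (ε / 200) (by positivity)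
  refine ⟨ε / 400, by positivity, ?_⟩
  intro n
  obtain ⟨D₀, hD₀⟩ := numer2 ε hε hε1 n D'
  refine ⟨D₀, ?_⟩
  intro k _ _ S₁ S₂ A₁ A₂ hD hA₁ hA₂ hcirc₁ hcirc₂ hsmall₁ hsmall₂ hlog₁ hlog₂ α β f2 g2
  by_contra hcon
  push Not at hcon
  obtain ⟨η, hη⟩ : ∃ η : ℝ, η = (finrank ℚ k : ℝ) ^ (ε / 400 : ℝ) := ⟨_, rfl⟩
  rw [← hη] at hlog₁ hlog₂
  have hη0 : 0 ≤ η := by rw [hη]; positivity
  have hQm : ∀ A : Matrix (Fin n) (Fin n) (𝓞 k), (A.charpoly.map (algebraMap (𝓞 k) k)).Monic :=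
    fun A => (Matrix.charpoly_monic A).map _
  have hQd : ∀ A : Matrix (Fin n) (Fin n) (𝓞 k),
      (A.charpoly.map (algebraMap (𝓞 k) k)).natDegree = n := by
    intro A
    rw [(Matrix.charpoly_monic A).natDegree_map, Matrix.charpoly_natDegree_eq_dim,
      Fintype.card_fin]
  have hαi : IsIntegral k α := ⟨_, hQm A₁, f2⟩
  have hβi : IsIntegral k β := ⟨_, hQm A₂, g2⟩
  have dα : finrank k k⟮α⟯ ≤ n := by
    rw [IntermediateField.adjoin.finrank hαi, ← hQd A₁]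
    exact Polynomial.natDegree_le_of_dvd (minpoly.dvd k α f2) (hQm A₁).ne_zero
  have dβ : finrank k k⟮β⟯ ≤ n := by
    rw [IntermediateField.adjoin.finrank hβi, ← hQd A₂]
    exact Polynomial.natDegree_le_of_dvd (minpoly.dvd k β g2) (hQm A₂).ne_zero
  have fdα : FiniteDimensional k k⟮α⟯ := IntermediateField.adjoin.finiteDimensional hαi
  have fdβ : FiniteDimensional k k⟮β⟯ := IntermediateField.adjoin.finiteDimensional hβi
  obtain ⟨E, hE⟩ : ∃ E : IntermediateField k (AlgebraicClosure k), E = k⟮α⟯ ⊔ k⟮β⟯ := ⟨_, rfl⟩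
  have fdE : FiniteDimensional k E := by
    rw [hE]
    infer_instance
  have dE : finrank k E ≤ n * n := by
    rw [hE]
    exact (IntermediateField.finrank_sup_le _ _).trans (Nat.mul_le_mul dα dβ)
  have hαE : α ∈ E := by
    rw [hE]
    exact (le_sup_left : k⟮α⟯ ≤ _) (IntermediateField.mem_adjoin_simple_self k α)
  have hβE : β ∈ E := by
    rw [hE]
    exact (le_sup_right : k⟮β⟯ ≤ _) (IntermediateField.mem_adjoin_simple_self k β)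
  have fdQ : FiniteDimensional ℚ E := Module.Finite.trans k E
  have nfE : NumberField E := ⟨⟩
  have ev : ∀ (A : Matrix (Fin n) (Fin n) (𝓞 k)) (γ : AlgebraicClosure k) (hγ : γ ∈ E),
      aeval γ (A.charpoly.map (algebraMap (𝓞 k) k)) = 0 → ∀ τ : E →+* ℂ,
      ((emb (τ.comp (algebraMap k E))).mapMatrix A).charpoly.IsRoot (τ ⟨γ, hγ⟩) := by
    intro A γ hγ h τ
    rw [charpoly_emb, Polynomial.IsRoot.def, Polynomial.eval_map, ← Polynomial.map_map,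
      Polynomial.eval₂_map, ← Polynomial.hom_eval₂, aeval_sub E γ hγ _ h, map_zero]
  have int : ∀ (A : Matrix (Fin n) (Fin n) (𝓞 k)), IsUnit A →
      ∀ (γ : AlgebraicClosure k) (hγ : γ ∈ E),
      aeval γ (A.charpoly.map (algebraMap (𝓞 k) k)) = 0 →
      (⟨γ, hγ⟩ : E) ≠ 0 ∧ IsIntegral ℤ (⟨γ, hγ⟩ : E) ∧ IsIntegral ℤ (⟨γ, hγ⟩ : E)⁻¹ := by
    intro A hA γ hγ h
    apply root_int A hA ((algebraMap k E).comp (algebraMap (𝓞 k) k))
    rw [← Polynomial.eval₂_map]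
    exact aeval_sub E γ hγ _ h
  have intα := int A₁ hA₁ α hαE f2
  have intβ := int A₂ hA₂ β hβE g2
  have evα := ev A₁ α hαE f2
  have evβ := ev A₂ β hβE g2
  have logα : ∀ (σ : k →+* ℂ) (l : ℂ), ((emb σ).mapMatrix A₁).charpoly.IsRoot l →
      Real.log ‖l‖ ≤ η := by
    intro σ l hl
    by_cases hσ : σ ∈ S₁
    · exact hlog₁ σ hσ l hl
    · rw [hcirc₁ σ hσ l hl, Real.log_one]
      exact hη0
  have logβ : ∀ (σ : k →+* ℂ) (l : ℂ), ((emb σ).mapMatrix A₂).charpoly.IsRoot l →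
      Real.log ‖l‖ ≤ η := by
    intro σ l hl
    by_cases hσ : σ ∈ S₂
    · exact hlog₂ σ hσ l hl
    · rw [hcirc₂ σ hσ l hl, Real.log_one]
      exact hη0
  have h4 : finrank ℚ k * finrank k E = finrank ℚ E := Module.finrank_mul_finrank ℚ k E
  -- the embeddings of `E` off the circle
  obtain ⟨T, hT⟩ : ∃ T : Finset (E →+* ℂ), ∀ τ, τ ∈ T ↔ τ.comp (algebraMap k E) ∈ S₁ ∪ S₂ :=
    ⟨Finset.univ.filter fun τ => τ.comp (algebraMap k E) ∈ S₁ ∪ S₂, fun ρ => by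
      rw [Finset.mem_filter]
      exact ⟨fun h => h.2, fun h => ⟨Finset.mem_univ _, h⟩⟩⟩
  have hTc : T.card ≤ (S₁.card + S₂.card) * (n * n) := by
    have h1 := ext_card_set (algebraMap k E) (S₁ ∪ S₂) T hT
    have hkpos : 0 < finrank ℚ k := Module.finrank_pos
    apply Nat.le_of_mul_le_mul_right _ hkpos
    rw [h1, ← h4]
    calc (S₁ ∪ S₂).card * (finrank ℚ k * finrank k E)
        ≤ (S₁.card + S₂.card) * (finrank ℚ k * (n * n)) :=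
          Nat.mul_le_mul (Finset.card_union_le _ _) (Nat.mul_le_mul_left _ dE)
      _ = _ := by ring
  obtain ⟨F, iF, nF, S', α', β', k1, k2, k3, k4, k5⟩ := pair_field3 (⟨α, hαE⟩ : E) ⟨β, hβE⟩
    intα.1 intβ.1 intα.2.1 intα.2.2 intβ.2.1 intβ.2.2 T (by
      intro τ hτ
      rw [hT, Finset.notMem_union] at hτ
      exact ⟨hcirc₁ _ hτ.1 _ (evα τ), hcirc₂ _ hτ.2 _ (evβ τ)⟩) η
    (fun a b hab => by
      obtain ⟨τ, hτ⟩ := hcon a b hab
      exact ⟨τ.comp (algebraMap E (AlgebraicClosure k)), hτ⟩)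
    (fun τ => logα _ _ (evα τ)) (fun τ => logβ _ _ (evβ τ))
  have hE1 : 0 < finrank k E := Module.finrank_pos
  have hTR : ((T.card : ℕ) : ℝ) ≤
      2 * (n : ℝ) ^ 2 * (finrank ℚ k : ℝ) ^ (1 / 2 - ε : ℝ) := by
    have h5 : (T.card : ℝ) ≤ (S₁.card + S₂.card) * (n * n) := by exact_mod_cast hTc
    have h6 : (0 : ℝ) ≤ (n : ℝ) ^ 2 := by positivity
    calc (T.card : ℝ) ≤ (S₁.card + S₂.card) * (n * n) := h5
      _ = (S₁.card + S₂.card) * (n : ℝ) ^ 2 := by ring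
      _ ≤ ((finrank ℚ k : ℝ) ^ (1 / 2 - ε : ℝ) + (finrank ℚ k : ℝ) ^ (1 / 2 - ε : ℝ)) *
          (n : ℝ) ^ 2 := mul_le_mul_of_nonneg_right (add_le_add hsmall₁ hsmall₂) h6
      _ = _ := by ring
  obtain ⟨m1, m2, m3⟩ := hD₀ (finrank ℚ k) (finrank ℚ E) (finrank ℚ F) S'.card
    T.card hD (by
      rw [← h4]
      exact Nat.le_mul_of_pos_right _ hE1) k2 (by
      rw [← h4]
      exact Nat.mul_le_mul_left _ dE) k1 k3 hTR
  rw [← hη] at m2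
  exact hD' F S' ((finrank ℚ F : ℝ) ^ (ε / 200 : ℝ)) α' β' m1 rfl m3 k4 (pair3_mono k5 m2)

end Pool.Agent.NH73.RO
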