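import Mathlib

/-!
# Elements generating one-dimensional tori: statements of two parts

`Ω` is the algebraic closure of the number field `k`.
-/

set_option autoImplicit false

open NumberField Module Polynomial

namespace Pool.Agent.NH73.RO

/-- **GAL**: if any two roots of `P` are multiplicatively dependent up to numbers with all conjugates on
the unit circle, the roots are, after raising to a power, powers of one unit `u` with `u + u⁻¹` in `k`.

Proof. (1) Let `α₀` be a root and `τ₀` with `‖τ₀ α₀‖ ≠ 1`, `x(τ) = log ‖τ α₀‖`. Let `g` be an automorphism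
of `Ω` over `k`. `g α₀` is a root: `a x(τ) + b x(τ ∘ g) = 0` for all `τ`, `(a, b) ≠ 0`, so `b ≠ 0` and
`x(τ ∘ g) = r x(τ)`, `r = -a/b`. As `g ^ m α₀ = α₀` for some `m > 0` (finitely many roots),
`r ^ m = 1`, so `r = 1` or `-1`. So `‖τ (g α₀)‖ = ‖τ α₀‖ ^ (±1)` for all `τ`, and
`(g α₀) ^ m = α₀ ^ (± m)` for some `m > 0`, by Kronecker (the quotient is integral with all conjugates on
the unit circle). Let `M` be the product of such `m` over the roots of the form `g α₀`, `u = α₀ ^ M`. Then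
`g u = u` or `u⁻¹` for all `g`, and `u + u⁻¹` is in `k`.
(2) for each root `β`: `‖τ α₀‖ ^ a ‖τ β‖ ^ b = 1` for all `τ`, `b ≠ 0` by `τ₀`, Kronecker:
`(α₀ ^ a β ^ b) ^ m = 1`. Raise to the power `M` and change signs. Take the product of the
exponents of the `β` for `N`. -/
def S_GAL : Prop := ∀ (k : Type) [Field k] [NumberField k] (P : k[X]), P ≠ 0 →
  (∀ β : AlgebraicClosure k, aeval β P = 0 → β ≠ 0 ∧ IsIntegral ℤ β ∧ IsIntegral ℤ β⁻¹) →
  (∀ α β : AlgebraicClosure k, aeval α P = 0 → aeval β P = 0 →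
    ∃ a b : ℤ, (a ≠ 0 ∨ b ≠ 0) ∧ ∀ τ : AlgebraicClosure k →+* ℂ, ‖τ α‖ ^ a * ‖τ β‖ ^ b = 1) →
  (∃ α : AlgebraicClosure k, aeval α P = 0 ∧ ∃ τ : AlgebraicClosure k →+* ℂ, ‖τ α‖ ≠ 1) →
  ∃ (u : AlgebraicClosure k) (t : k) (N : ℕ), 0 < N ∧ u ≠ 0 ∧
    u + u⁻¹ = algebraMap k (AlgebraicClosure k) t ∧ IsIntegral ℤ u ∧
    (∃ τ : AlgebraicClosure k →+* ℂ, ‖τ u‖ ≠ 1) ∧
    ∀ β : AlgebraicClosure k, aeval β P = 0 → ∃ c : ℤ, β ^ N = u ^ c

/-- **DIV**: a division algebra of odd dimension over its (central) subfield `L` contains no quadratic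
extension of `L`. -/
def S_DIV : Prop := ∀ (L D : Type) [Field L] [DivisionRing D] [Algebra L D],
  Odd (finrank L D) → ∀ (b : D) (p q : L),
    b * b = algebraMap L D p * b + algebraMap L D q → b ∈ Set.range (algebraMap L D)

end Pool.Agent.NH73.RO
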